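import Pool.Agent.W792.GK.Stm

noncomputable section

namespace Pool.Agent.W52.GKCoef

open Pool.Agent.W792.GK UnitAddTorus MeasureTheory

local instance : MeasureSpace UnitAddCircle := ⟨AddCircle.haarAddCircle⟩

local instance : Measure.IsAddHaarMeasure (volume : Measure UnitAddCircle) :=
  inferInstanceAs (Measure.IsAddHaarMeasure AddCircle.haarAddCircle)

local instance : IsProbabilityMeasure (volume : Measure UnitAddCircle) :=
  inferInstanceAs (IsProbabilityMeasure AddCircle.haarAddCircle)

theorem coef_mono {ι : Type} [Fintype ι] (n x : ι → ℤ) :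
    ∫ t : UnitAddTorus ι, mFourier (-x) t * mFourier n t = if x = n then 1 else 0 := by
  have h := (orthonormal_iff_ite.1 (orthonormal_mFourier (d := ι))) x n
  simp only [mFourierLp, ContinuousMap.inner_toLp, ← mFourier_neg] at h
  simp only [mul_comm]
  exact h

theorem main : S_COEF := by
  intro ι _ h f hf x
  unfold hop mFourierCoeff
  have h1 : ∀ t : UnitAddTorus ι, mFourier (-x) t • ((f t : ℝ) : ℂ) =
      ∑ n ∈ h.support, h n * (mFourier (-x) t * mFourier n t) := by
    intro t
    rw [hf t, smul_eq_mul]
    unfold trig
    rw [Finsupp.sum, ContinuousMap.sum_apply, Finset.mul_sum]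
    refine Finset.sum_congr rfl fun n _ => ?_
    rw [ContinuousMap.smul_apply, smul_eq_mul]
    ring
  simp only [h1]
  have h2 : ∫ t : UnitAddTorus ι, ∑ n ∈ h.support, h n * (mFourier (-x) t * mFourier n t) =
      h x := by
    rw [integral_finsetSum]
    · simp only [integral_const_mul, coef_mono, mul_ite, mul_one, mul_zero]
      rw [Finset.sum_ite_eq]
      split_ifs with h2
      · rfl
      · rw [Finsupp.notMem_support_iff] at h2
        exact h2.symm
    · intro n _
      apply Integrable.const_mul
      have hc : Continuous fun t : UnitAddTorus ι => mFourier (-x) t * mFourier n t := by fun_prop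
      exact hc.integrable_of_hasCompactSupport (HasCompactSupport.of_compactSpace _)
  exact h2

end Pool.Agent.W52.GKCoef

end
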