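import Pool.Agent.W52.DPInd

/-!
# DP-TWO: the two-point upper bound (helper52)
-/

set_option autoImplicit false

namespace Pool.Agent.W52.DPTwo

open H974 H12S H389NS H984P H984N Finset
open Pool.Agent.W92.DP Pool.Agent.W52.DPInd

/-! ### paths -/

theorem insert_split {H : Set Edg} {e : Edg} {x y : Vtx} (h : Reach (insert e H) x y) :
    Reach (H \ {e}) x y ∨ ∃ a a' : Vtx, ((a = src e ∧ a' = tgt e) ∨ (a = tgt e ∧ a' = src e)) ∧
      Reach (H \ {e}) x a ∧ Reach (H \ {e}) a' y := by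
  induction h with
  | refl => exact Or.inl (Reach.refl _ _)
  | @tail y' y _ hs ih =>
    obtain ⟨g, hg, hcase⟩ := hs
    by_cases hge : g = e
    · subst hge
      have hyy : (y' = src g ∧ y = tgt g) ∨ (y' = tgt g ∧ y = src g) := by
        rcases hcase with ⟨h1, h2⟩ | ⟨h1, h2⟩
        · exact Or.inl ⟨h1.symm, h2.symm⟩
        · exact Or.inr ⟨h2.symm, h1.symm⟩
      rcases ih with ih | ⟨a, a', haa, h1, h2⟩
      · exact Or.inr ⟨y', y, hyy, ih, Reach.refl _ _⟩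
      · by_cases ha : a = y
        · left
          rw [← ha]; exact h1
        · right
          have ha' : a = y' := by
            rcases haa with ⟨h3, _⟩ | ⟨h3, _⟩ <;> rcases hyy with ⟨h4, h5⟩ | ⟨h4, h5⟩
            · rw [h3, h4]
            · exact absurd (h3.trans h5.symm) ha
            · exact absurd (h3.trans h5.symm) ha
            · rw [h3, h4]
          refine ⟨y', y, hyy, ?_, Reach.refl _ _⟩
          rw [← ha']; exact h1
    · have hg' : g ∈ H \ {e} := by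
        rcases hg with hg | hg
        · exact absurd hg hge
        · exact ⟨hg, hge⟩
      have hst : Reach (H \ {e}) y' y := Adj.reach ⟨g, hg', hcase⟩
      rcases ih with ih | ⟨a, a', haa, h1, h2⟩
      · exact Or.inl (ih.trans hst)
      · exact Or.inr ⟨a, a', haa, h1, h2.trans hst⟩

/-- last exit of an open path from the square of radius `d` -/
theorem last_exit {c : ℤ × ℤ} {d k : ℕ} {G F : Set Edg} (hG : G ⊆ F)
    (hG2 : ∀ e ∈ G, e ∈ blk c k) (hd : d ≤ k) {w : Vtx}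
    (hw : w.1 ≤ c.1 - k ∨ c.1 + k ≤ w.1 ∨ w.2 ≤ c.2 - k ∨ c.2 + k ≤ w.2) {u : Vtx}
    (h : Reach G w u) (hu : inR (c.1 - d) (c.1 + d) (c.2 - d) (c.2 + d) u) :
    ∃ v, inR (c.1 - d) (c.1 + d) (c.2 - d) (c.2 + d) v ∧
      (v.1 = c.1 - d ∨ v.1 = c.1 + d ∨ v.2 = c.2 - d ∨ v.2 = c.2 + d) ∧
      Reach (F ∩ ↑(blk c k \ blk c d)) v w := by
  have key : ∀ x, Reach G w x → (∃ v, inR (c.1 - d) (c.1 + d) (c.2 - d) (c.2 + d) v ∧
      (v.1 = c.1 - d ∨ v.1 = c.1 + d ∨ v.2 = c.2 - d ∨ v.2 = c.2 + d) ∧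
      Reach (F ∩ ↑(blk c k \ blk c d)) v w) ∨
      (¬ inR (c.1 - d) (c.1 + d) (c.2 - d) (c.2 + d) x ∧
        Reach (F ∩ ↑(blk c k \ blk c d)) x w) := by
    intro x hx
    induction hx with
    | refl =>
      by_cases h1 : inR (c.1 - d) (c.1 + d) (c.2 - d) (c.2 + d) w
      · left
        refine ⟨w, h1, ?_, Reach.refl _ _⟩
        unfold inR at h1
        omega
      · exact Or.inr ⟨h1, Reach.refl _ _⟩
    | @tail x y _ hs ih =>
      rcases ih with ih | ⟨hx1, hx2⟩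
      · exact Or.inl ih
      · obtain ⟨e, he, hcase⟩ := hs
        have heb : e ∉ blk c d := by
          intro heb
          apply hx1
          obtain ⟨p, q, β⟩ := e
          unfold blk at heb
          unfold inR
          cases β
          · rw [mem_RE_false] at heb
            simp only [src_mk, tgt_false] at hcase
            rcases hcase with ⟨h1, _⟩ | ⟨_, h1⟩ <;> rw [← h1] <;> simp only <;> omega
          · rw [mem_RE_true] at heb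
            simp only [src_mk, tgt_true] at hcase
            rcases hcase with ⟨h1, _⟩ | ⟨_, h1⟩ <;> rw [← h1] <;> simp only <;> omega
        have hadj : Adj (F ∩ ↑(blk c k \ blk c d)) y x :=
          ⟨e, ⟨hG he, mem_coe.2 (mem_sdiff.2 ⟨hG2 e he, heb⟩)⟩, hcase.symm⟩
        have hr : Reach (F ∩ ↑(blk c k \ blk c d)) y w := Relation.ReflTransGen.head hadj hx2
        by_cases hy : inR (c.1 - d) (c.1 + d) (c.2 - d) (c.2 + d) y
        · left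
          refine ⟨y, hy, ?_, hr⟩
          obtain ⟨p, q, β⟩ := e
          unfold inR at hy hx1
          cases β
          · simp only [src_mk, tgt_false] at hcase
            rcases hcase with ⟨h1, h2⟩ | ⟨h2, h1⟩ <;> rw [← h1] at hx1 <;> rw [← h2] at hy ⊢ <;>
              simp only at hx1 hy ⊢ <;> omega
          · simp only [src_mk, tgt_true] at hcase
            rcases hcase with ⟨h1, h2⟩ | ⟨h2, h1⟩ <;> rw [← h1] at hx1 <;> rw [← h2] at hy ⊢ <;>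
              simp only at hx1 hy ⊢ <;> omega
        · exact Or.inr ⟨hy, hr⟩
  rcases key u h with h1 | ⟨h1, _⟩
  · exact h1
  · exact absurd hu h1

theorem bdB_iff {c : ℤ × ℤ} {s : ℕ} {v : Vtx} :
    v ∈ bdB c s ↔ inR (c.1 - s) (c.1 + s) (c.2 - s) (c.2 + s) v ∧
      (v.1 = c.1 - s ∨ v.1 = c.1 + s ∨ v.2 = c.2 - s ∨ v.2 = c.2 + s) := by
  have h0 : (0:ℤ) ≤ s := Int.natCast_nonneg s
  have h1 : v ∈ bdB c s ↔ |v.1 - c.1| ≤ s ∧ |v.2 - c.2| ≤ s ∧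
    (|v.1 - c.1| = s ∨ |v.2 - c.2| = s) := Iff.rfl
  rw [h1, abs_le, abs_le, abs_eq h0, abs_eq h0]
  unfold inR
  omega

/-- two arms from the end points of an edge give the annulus event -/
theorem A4a_of_arms {v : Vtx} {β : Bool} {F : Set Edg} {N d k : ℕ} (hd : 1 ≤ d) (hdk : d ≤ k)
    (hk : k ≤ N) {A A' X Y : Vtx}
    (hA : (A = src (v.1, v.2, β) ∧ A' = tgt (v.1, v.2, β)) ∨
      (A = tgt (v.1, v.2, β) ∧ A' = src (v.1, v.2, β)))
    (h1 : Reach ((F ∩ ↑(blk v N)) \ {(v.1, v.2, β)}) X A)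
    (h2 : Reach ((F ∩ ↑(blk v N)) \ {(v.1, v.2, β)}) A' Y)
    (h3 : ¬ Reach ((F ∩ ↑(blk v N)) \ {(v.1, v.2, β)}) A A')
    (hX : X.2 = v.2 - N) (hY : Y.2 = v.2 + N) : A4a v d k F := by
  have hends : ∀ r : ℕ, 1 ≤ r → inR (v.1 - r) (v.1 + r) (v.2 - r) (v.2 + r) A ∧
      inR (v.1 - r) (v.1 + r) (v.2 - r) (v.2 + r) A' := by
    intro r hr
    unfold inR
    cases β
    · rw [src_mk, tgt_false] at hA
      rcases hA with ⟨h4, h5⟩ | ⟨h4, h5⟩ <;> rw [h4, h5] <;> simp only <;> omega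
    · rw [src_mk, tgt_true] at hA
      rcases hA with ⟨h4, h5⟩ | ⟨h4, h5⟩ <;> rw [h4, h5] <;> simp only <;> omega
  have heb : ((v.1, v.2, β) : Edg) ∈ blk v d := by
    unfold blk
    cases β
    · rw [mem_RE_false]; omega
    · rw [mem_RE_true]; omega
  set M : Set Edg := (F ∩ ↑(blk v N)) \ {(v.1, v.2, β)} with hM
  obtain ⟨X1, x1, x2, x3⟩ := first_exit (hends k (by omega)).1 h1.symm (by omega)
  obtain ⟨Y1, y1, y2, y3⟩ := first_exit (hends k (by omega)).2 h2 (by omega)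
  have hsub : M ∩ ↑(RE (v.1 - k) (v.1 + k) (v.2 - k) (v.2 + k)) ⊆ F := fun g hg => hg.1.1.1
  have hblk : ∀ g ∈ M ∩ ↑(RE (v.1 - k) (v.1 + k) (v.2 - k) (v.2 + k)), g ∈ blk v k :=
    fun g hg => Finset.mem_coe.1 hg.2
  obtain ⟨u, u1, u2, u3⟩ := last_exit hsub hblk hdk (by omega) x3.symm (hends d hd).1
  obtain ⟨u', u1', u2', u3'⟩ := last_exit hsub hblk hdk (by omega) y3.symm (hends d hd).2
  have hback : F ∩ ↑(blk v k \ blk v d) ⊆ M := by
    rintro g ⟨hg1, hg2⟩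
    obtain ⟨hg3, hg4⟩ := mem_sdiff.1 (mem_coe.1 hg2)
    refine ⟨⟨hg1, mem_coe.2 ?_⟩, ?_⟩
    · refine (RE_subset ?_ ?_ ?_ ?_ : RE _ _ _ _ ⊆ RE _ _ _ _) hg3 <;> omega
    · rintro rfl
      exact hg4 heb
  refine ⟨u, bdB_iff.2 ⟨u1, u2⟩, u', bdB_iff.2 ⟨u1', u2'⟩, ⟨X1, bdB_iff.2 ⟨x1, x2⟩, u3⟩,
    ⟨Y1, bdB_iff.2 ⟨y1, y2⟩, u3'⟩, fun hr => h3 ?_⟩
  have e1 : Reach M A X1 := x3.mono Set.inter_subset_left
  have e2 : Reach M A' Y1 := y3.mono Set.inter_subset_left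
  exact e1.trans ((u3.mono hback).symm.trans ((hr.mono hback).trans
    ((u3'.mono hback).trans e2.symm)))

/-- shift of an edge -/
def sh (v : Vtx) (e : Edg) : Edg := (e.1 + v.1, e.2.1 + v.2, e.2.2)

theorem src_sh (v : Vtx) (e : Edg) : src (sh v e) = ((src e).1 + v.1, (src e).2 + v.2) := by
  obtain ⟨x, y, b⟩ := e
  rfl

theorem tgt_sh (v : Vtx) (e : Edg) : tgt (sh v e) = ((tgt e).1 + v.1, (tgt e).2 + v.2) := by
  obtain ⟨x, y, _ | _⟩ := e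
  · unfold sh
    rw [tgt_false, tgt_false]
    simp only [Prod.mk.injEq, true_and]
    ring
  · unfold sh
    rw [tgt_true, tgt_true]
    simp only [Prod.mk.injEq, and_true]
    ring

theorem reach_sh {v : Vtx} {G F : Set Edg} (h : ∀ g ∈ G, sh v g ∈ F) {x y : Vtx}
    (hr : Reach G x y) : Reach F (x.1 + v.1, x.2 + v.2) (y.1 + v.1, y.2 + v.2) := by
  induction hr with
  | refl => exact Reach.refl _ _
  | tail _ hs ih =>
    obtain ⟨g, hg, hcase⟩ := hs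
    refine ih.trans (Adj.reach ⟨sh v g, h g hg, ?_⟩)
    rw [src_sh, tgt_sh]
    rcases hcase with ⟨h1, h2⟩ | ⟨h1, h2⟩
    · left; rw [h1, h2]; exact ⟨rfl, rfl⟩
    · right; rw [h1, h2]; exact ⟨rfl, rfl⟩

theorem E4_A4a {L m : ℕ} (hL : 1 ≤ L) (hm : 1 ≤ m) {v : Vtx} {F : Finset Edg} {d k : ℕ}
    (hd : 1 ≤ d) (hdk : d ≤ k) (hk : k ≤ 16 * L * m) (h : E4 L m v F) : A4a v d k ↑F := by
  obtain ⟨β, ⟨hp1, hp2⟩, _⟩ := h
  have hpos : 0 < L * m := Nat.mul_pos hL hm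
  have hmL : m ≤ L * m := Nat.le_mul_of_pos_left m hL
  have e4 : 4 * L * m = 4 * (L * m) := by ring
  have e16 : 16 * L * m = 16 * (L * m) := by ring
  obtain ⟨N, hN⟩ : ∃ N : ℕ, N = 16 * L * m := ⟨_, rfl⟩
  obtain ⟨b, hb⟩ : ∃ b : ℕ, b = 4 * L * m := ⟨_, rfl⟩
  rw [← hN] at hp1 hp2 hk
  rw [← hb] at hp1 hp2
  have hbN : b ≤ N := by omega
  have hmN : m ≤ N := by omega
  obtain ⟨x, hx, y, hy, hr⟩ := hp1
  have hXVK : (shc v ↑F ∩ ↑(XV b m N)) \ {e0 β} ⊆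
      (((shc v ↑F ∩ ↑(XH b m N)) ∪ ↑(boxE N \ XH b m N)) \ {e0 β} : Set Edg) := by
    rintro g ⟨⟨hg1, hg2⟩, hg3⟩
    refine ⟨?_, hg3⟩
    by_cases hgH : g ∈ XH b m N
    · exact Or.inl ⟨hg1, hgH⟩
    · exact Or.inr (mem_coe.2 (mem_sdiff.2 ⟨XV_sub hbN hmN hg2, hgH⟩))
  have hBK : (shc v ↑F ∩ ↑(boxE N)) \ {e0 β} ⊆
      (((shc v ↑F ∩ ↑(XH b m N)) ∪ ↑(boxE N \ XH b m N)) \ {e0 β} : Set Edg) := by
    rintro g ⟨⟨hg1, hg2⟩, hg3⟩
    refine ⟨?_, hg3⟩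
    by_cases hgH : g ∈ XH b m N
    · exact Or.inl ⟨hg1, hgH⟩
    · exact Or.inr (mem_coe.2 (mem_sdiff.2 ⟨hg2, hgH⟩))
  have hVB : (shc v ↑F ∩ ↑(XV b m N)) \ {e0 β} ⊆ (shc v ↑F ∩ ↑(boxE N)) \ ({e0 β} : Set Edg) := by
    rintro g ⟨⟨hg1, hg2⟩, hg3⟩
    exact ⟨⟨hg1, mem_coe.2 (XV_sub hbN hmN (mem_coe.1 hg2))⟩, hg3⟩
  rcases insert_split hr with h0 | ⟨a, a', haa, h1, h2⟩
  · exact absurd ⟨x, hx, y, hy, h0.mono hXVK⟩ hp2
  have h3 : ¬ Reach ((shc v ↑F ∩ ↑(boxE N)) \ ({e0 β} : Set Edg)) a a' := by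
    intro h3
    exact hp2 ⟨x, hx, y, hy, (h1.mono hXVK).trans ((h3.mono hBK).trans (h2.mono hXVK))⟩
  have hshift : ∀ g ∈ (shc v ↑F ∩ ↑(boxE N)) \ ({e0 β} : Set Edg),
      sh v g ∈ (↑F ∩ ↑(blk v N)) \ ({(v.1, v.2, β)} : Set Edg) := by
    rintro ⟨p, q, c⟩ ⟨⟨hg1, hg2⟩, hg3⟩
    refine ⟨⟨hg1, ?_⟩, ?_⟩
    · rw [mem_coe] at hg2 ⊢
      unfold sh blk
      unfold boxE at hg2
      cases c
      · rw [mem_RE_false] at hg2 ⊢; simp only at hg2 ⊢; omega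
      · rw [mem_RE_true] at hg2 ⊢; simp only at hg2 ⊢; omega
    · intro hc
      apply hg3
      unfold sh at hc
      unfold e0
      simp only [Set.mem_singleton_iff, Prod.mk.injEq] at hc ⊢
      exact ⟨by omega, by omega, hc.2.2⟩
  have hshift' : ∀ g ∈ (↑F ∩ ↑(blk v N)) \ ({(v.1, v.2, β)} : Set Edg),
      sh (-v.1, -v.2) g ∈ (shc v ↑F ∩ ↑(boxE N)) \ ({e0 β} : Set Edg) := by
    rintro ⟨p, q, c⟩ ⟨⟨hg1, hg2⟩, hg3⟩
    refine ⟨⟨?_, ?_⟩, ?_⟩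
    · change ((p + -v.1 + v.1, q + -v.2 + v.2, c) : Edg) ∈ (↑F : Set Edg)
      rw [neg_add_cancel_right, neg_add_cancel_right]
      exact hg1
    · rw [mem_coe] at hg2 ⊢
      unfold sh boxE
      unfold blk at hg2
      cases c
      · rw [mem_RE_false] at hg2 ⊢; simp only at hg2 ⊢; omega
      · rw [mem_RE_true] at hg2 ⊢; simp only at hg2 ⊢; omega
    · intro hc
      apply hg3
      unfold sh e0 at hc
      simp only [Set.mem_singleton_iff, Prod.mk.injEq] at hc ⊢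
      exact ⟨by omega, by omega, hc.2.2⟩
  have g1 := reach_sh hshift (h1.mono hVB)
  have g2 := reach_sh hshift (h2.mono hVB)
  refine A4a_of_arms hd hdk hk (A := (a.1 + v.1, a.2 + v.2)) (A' := (a'.1 + v.1, a'.2 + v.2))
    (β := β) ?_ g1 g2 ?_ ?_ ?_
  · have es : src ((v.1, v.2, β) : Edg) = ((src (e0 β)).1 + v.1, (src (e0 β)).2 + v.2) := by
      rw [← src_sh]
      simp [sh, e0]
    have et : tgt ((v.1, v.2, β) : Edg) = ((tgt (e0 β)).1 + v.1, (tgt (e0 β)).2 + v.2) := by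
      rw [← tgt_sh]
      simp [sh, e0]
    rw [es, et]
    rcases haa with ⟨h4, h5⟩ | ⟨h4, h5⟩
    · left; rw [h4, h5]; exact ⟨rfl, rfl⟩
    · right; rw [h4, h5]; exact ⟨rfl, rfl⟩
  · intro hc
    apply h3
    have := reach_sh hshift' hc
    simpa using this
  · have : x.2 = -(N : ℤ) := hx
    simp only
    omega
  · have : y.2 = (N : ℤ) := hy
    simp only
    omega

/-! ### locality -/

theorem A4a_local {c : ℤ × ℤ} {d k : ℕ} {T : Finset Edg} (hT : blk c k \ blk c d ⊆ T)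
    (F : Finset Edg) : A4a c d k ↑F ↔ A4a c d k ↑(F ∩ T) := by
  unfold A4a
  rw [coe_inter_eq hT]

theorem blk_SA {U : ℤ} {v : Vtx} (hv : v ∈ core4 U) {N : ℕ} (hN : (N : ℤ) ≤ 16 * U) :
    blk v N ⊆ SA U := by
  rw [mem_core4] at hv
  exact RE_sub (by omega) (by omega) (by omega) (by omega) (by omega)

theorem blk_disj {v w : Vtx} {K ρ : ℕ}
    (h : (v.1 - w.1 = K ∨ w.1 - v.1 = K ∨ v.2 - w.2 = K ∨ w.2 - v.2 = K)) (hρ : 2 * ρ < K) :
    Disjoint (blk v ρ) (blk w ρ) := by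
  rw [Finset.disjoint_left]
  intro e h1 h2
  unfold blk at h1 h2
  obtain ⟨x, y, _ | _⟩ := e
  · rw [mem_RE_false] at h1 h2; omega
  · rw [mem_RE_true] at h1 h2; omega

theorem sd_spec {v w : Vtx} {K : ℕ} (hK : sd v w = K) :
    (v.1 - w.1 ≤ K ∧ w.1 - v.1 ≤ K ∧ v.2 - w.2 ≤ K ∧ w.2 - v.2 ≤ K) ∧
      (v.1 - w.1 = K ∨ w.1 - v.1 = K ∨ v.2 - w.2 = K ∨ w.2 - v.2 = K) := by
  unfold sd at hK
  have h1 := le_max_left |v.1 - w.1| |v.2 - w.2|
  have h2 := le_max_right |v.1 - w.1| |v.2 - w.2|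
  rw [hK] at h1 h2
  rw [abs_le] at h1 h2
  refine ⟨by omega, ?_⟩
  rcases max_choice |v.1 - w.1| |v.2 - w.2| with h | h
  · rw [h] at hK
    rcases abs_choice (v.1 - w.1) with h' | h' <;> rw [h'] at hK <;> omega
  · rw [h] at hK
    rcases abs_choice (v.2 - w.2) with h' | h' <;> rw [h'] at hK <;> omega

/-! ### real numbers -/

theorem sum_bound {C : ℝ} (hC : 0 < C) {ρ K m U : ℕ} (hρ : K ≤ 4 * ρ) (hK : 1 ≤ K) (hm : 1 ≤ m)
    (hmU : m ≤ U) {q1 q2 q3 : ℝ} (h1 : q1 ≤ C * (((1 : ℕ) : ℝ) / ρ) ^ (5/4 : ℝ))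
    (h2 : q2 ≤ C * (((1 : ℕ) : ℝ) / ρ) ^ (5/4 : ℝ))
    (h3 : q3 ≤ C * (((2 * K : ℕ) : ℝ) / ((16 * U : ℕ) : ℝ)) ^ (5/4 : ℝ))
    (h02 : 0 ≤ q2) (h03 : 0 ≤ q3) :
    q1 * (q2 * q3) ≤ C ^ 3 * ((4 : ℝ) ^ (5/4 : ℝ)) ^ 2 *
      ((K : ℝ) ^ (-(5/4) : ℝ) * (m : ℝ) ^ (-(5/4) : ℝ)) := by
  have hK' : (1 : ℝ) ≤ K := by exact_mod_cast hK
  have hm' : (1 : ℝ) ≤ m := by exact_mod_cast hm
  have hU' : (m : ℝ) ≤ U := by exact_mod_cast hmU
  have hρ' : (K : ℝ) ≤ 4 * ρ := by exact_mod_cast hρ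
  have hρ0 : (0 : ℝ) < ρ := by linarith
  have e1 : (((1 : ℕ) : ℝ) / ρ) ^ (5/4 : ℝ) ≤ (4 : ℝ) ^ (5/4 : ℝ) / (K : ℝ) ^ (5/4 : ℝ) := by
    rw [← Real.div_rpow (by norm_num) (by positivity)]
    apply Real.rpow_le_rpow (by positivity) _ (by norm_num)
    rw [div_le_div_iff₀ hρ0 (by linarith)]
    push_cast
    linarith
  have e2 : (((2 * K : ℕ) : ℝ) / ((16 * U : ℕ) : ℝ)) ^ (5/4 : ℝ) ≤
      (K : ℝ) ^ (5/4 : ℝ) / (m : ℝ) ^ (5/4 : ℝ) := by
    rw [← Real.div_rpow (by positivity) (by positivity)]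
    apply Real.rpow_le_rpow (by positivity) _ (by norm_num)
    rw [div_le_div_iff₀ (by push_cast; linarith) (by linarith)]
    push_cast
    nlinarith
  rw [Real.rpow_neg (by positivity), Real.rpow_neg (by positivity)]
  have k0 : 0 < (K : ℝ) ^ (5/4 : ℝ) := Real.rpow_pos_of_pos (by linarith) _
  have l0 : 0 < (m : ℝ) ^ (5/4 : ℝ) := Real.rpow_pos_of_pos (by linarith) _
  have p0 : 0 < (4 : ℝ) ^ (5/4 : ℝ) := Real.rpow_pos_of_pos (by norm_num) _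
  set kk := (K : ℝ) ^ (5/4 : ℝ)
  set ll := (m : ℝ) ^ (5/4 : ℝ)
  set pp := (4 : ℝ) ^ (5/4 : ℝ)
  have g1 := h1.trans (mul_le_mul_of_nonneg_left e1 hC.le)
  have g2 := h2.trans (mul_le_mul_of_nonneg_left e1 hC.le)
  have g3 := h3.trans (mul_le_mul_of_nonneg_left e2 hC.le)
  calc q1 * (q2 * q3) ≤ (C * (pp / kk)) * ((C * (pp / kk)) * (C * (kk / ll))) := by
        apply mul_le_mul g1 (mul_le_mul g2 g3 h03 (by positivity)) (by positivity) (by positivity)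
    _ = C ^ 3 * pp ^ 2 * (kk⁻¹ * ll⁻¹) := by
        field_simp

theorem small_bound {C : ℝ} (hC : 0 < C) {K m U : ℕ} (hK : K ≤ 2) (hK1 : 1 ≤ K) (hm : 1 ≤ m)
    (hmU : m ≤ U) {q : ℝ} (h : q ≤ C * (((1 : ℕ) : ℝ) / ((16 * U : ℕ) : ℝ)) ^ (5/4 : ℝ)) :
    q ≤ C * (2 : ℝ) ^ (5/4 : ℝ) * ((K : ℝ) ^ (-(5/4) : ℝ) * (m : ℝ) ^ (-(5/4) : ℝ)) := by
  have hm' : (1 : ℝ) ≤ m := by exact_mod_cast hm
  have hU' : (m : ℝ) ≤ U := by exact_mod_cast hmU
  have hK' : (K : ℝ) ≤ 2 := by exact_mod_cast hK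
  have hK1' : (1 : ℝ) ≤ K := by exact_mod_cast hK1
  have e2 : (((1 : ℕ) : ℝ) / ((16 * U : ℕ) : ℝ)) ^ (5/4 : ℝ) ≤ 1 / (m : ℝ) ^ (5/4 : ℝ) := by
    rw [show (1 : ℝ) / (m : ℝ) ^ (5/4 : ℝ) = (1 / (m : ℝ)) ^ (5/4 : ℝ) by
      rw [Real.div_rpow (by norm_num) (by positivity), Real.one_rpow]]
    apply Real.rpow_le_rpow (by positivity) _ (by norm_num)
    rw [div_le_div_iff₀ (by push_cast; linarith) (by linarith)]
    push_cast
    linarith
  have e3 : (K : ℝ) ^ (5/4 : ℝ) ≤ (2 : ℝ) ^ (5/4 : ℝ) :=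
    Real.rpow_le_rpow (by linarith) hK' (by norm_num)
  rw [Real.rpow_neg (by positivity), Real.rpow_neg (by positivity)]
  have k0 : 0 < (K : ℝ) ^ (5/4 : ℝ) := Real.rpow_pos_of_pos (by linarith) _
  have l0 : 0 < (m : ℝ) ^ (5/4 : ℝ) := Real.rpow_pos_of_pos (by linarith) _
  set kk := (K : ℝ) ^ (5/4 : ℝ)
  set ll := (m : ℝ) ^ (5/4 : ℝ)
  set pp := (2 : ℝ) ^ (5/4 : ℝ)
  have e4 : 1 ≤ pp * kk⁻¹ := by
    rw [← div_eq_mul_inv, le_div_iff₀ k0, one_mul]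
    exact e3
  calc q ≤ C * (1 / ll) := h.trans (mul_le_mul_of_nonneg_left e2 hC.le)
    _ = C * (1 * ll⁻¹) := by rw [one_mul, one_div]
    _ ≤ C * ((pp * kk⁻¹) * ll⁻¹) := by
        apply mul_le_mul_of_nonneg_left _ hC.le
        exact mul_le_mul_of_nonneg_right e4 (by positivity)
    _ = C * pp * (kk⁻¹ * ll⁻¹) := by ring

theorem two : St_Aa → St_two := by
  rintro ⟨C, hC, hA⟩ L hL
  refine ⟨C ^ 3 * ((4 : ℝ) ^ (5/4 : ℝ)) ^ 2 + C * (2 : ℝ) ^ (5/4 : ℝ), by positivity, ?_⟩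
  intro m hm v hv w hw S hS
  have hpos : 0 < L * m := Nat.mul_pos (by omega) (by omega)
  have hmL : m ≤ L * m := Nat.le_mul_of_pos_left m (by omega)
  have e16 : 16 * L * m = 16 * (L * m) := by ring
  obtain ⟨U, hU⟩ : ∃ U : ℕ, U = L * m := ⟨_, rfl⟩
  rw [← hU] at hv hw hS hpos hmL e16
  have hk0 : 0 ≤ sd v w := le_max_of_le_left (abs_nonneg _)
  obtain ⟨K, hK⟩ := Int.eq_ofNat_of_zero_le hk0
  have hsp := sd_spec hK
  rw [hK]
  have hv' := mem_core4.1 hv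
  have hw' := mem_core4.1 hw
  have hKU : K ≤ 2 * U := by omega
  have hbv : ∀ N : ℕ, N ≤ 16 * U → blk v N ⊆ S := fun N hN =>
    (blk_SA hv (by omega)).trans hS
  have hbw : ∀ N : ℕ, N ≤ 16 * U → blk w N ⊆ S := fun N hN =>
    (blk_SA hw (by omega)).trans hS
  have hmm : 0 < (m : ℝ) ^ (-(5/4) : ℝ) := Real.rpow_pos_of_pos (by exact_mod_cast (by omega : 0 < m)) _
  by_cases hK3 : K < 3
  · have hmx : (max (K : ℤ) 1) = ((max K 1 : ℕ) : ℤ) := by push_cast; rfl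
    rw [hmx]
    have h1 : PQ (1/2) S (fun F => E4 L m v F ∧ E4 L m w F) ≤
        PQ (1/2) S (fun F => A4a v 1 (16 * U) ↑F) :=
      Pr_mono okhalf (fun F _ hF => E4_A4a (by omega) (by omega) le_rfl (by omega)
        (by omega) hF.1)
    have h2 := h1.trans (hA v 1 (16 * U) le_rfl (by omega) S (hbv _ le_rfl))
    have h3 := small_bound hC (K := max K 1) (m := m) (U := U) (by omega) (by omega) (by omega)
      hmL h2
    have h4 : (((max K 1 : ℕ) : ℤ) : ℝ) = ((max K 1 : ℕ) : ℝ) := by norm_cast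
    rw [h4]
    have hm0 : 0 < ((max K 1 : ℕ) : ℝ) ^ (-(5/4) : ℝ) := by
      apply Real.rpow_pos_of_pos
      have : 0 < max K 1 := by omega
      exact_mod_cast this
    have h5 : 0 ≤ C ^ 3 * ((4 : ℝ) ^ (5/4 : ℝ)) ^ 2 *
        (((max K 1 : ℕ) : ℝ) ^ (-(5/4) : ℝ) * (m : ℝ) ^ (-(5/4) : ℝ)) := by positivity
    linarith
  · obtain ⟨ρ, hρ1, hρ2⟩ : ∃ ρ : ℕ, 2 * ρ < K ∧ K ≤ 4 * ρ := ⟨(K - 1) / 2, by omega, by omega⟩
    have hmx : (max (K : ℤ) 1) = (K : ℤ) := by omega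
    rw [hmx]
    have d12 : Disjoint (blk v ρ) (blk w ρ) := blk_disj hsp.2 hρ1
    have sv : blk v ρ ⊆ blk v (2 * K) := RE_subset (by omega) (by omega) (by omega) (by omega)
    have sw : blk w ρ ⊆ blk v (2 * K) :=
      RE_subset (by omega) (by omega) (by omega) (by omega)
    have d13 : Disjoint (blk v ρ) (blk v (16 * U) \ blk v (2 * K)) :=
      Finset.disjoint_of_subset_left sv Finset.disjoint_sdiff
    have d23 : Disjoint (blk w ρ) (blk v (16 * U) \ blk v (2 * K)) :=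
      Finset.disjoint_of_subset_left sw Finset.disjoint_sdiff
    have s3 : blk v (16 * U) \ blk v (2 * K) ⊆ S := Finset.sdiff_subset.trans (hbv _ le_rfl)
    have i23 : PQ (1/2) S (fun F => A4a w 1 ρ ↑F ∧ A4a v (2 * K) (16 * U) ↑F) =
        PQ (1/2) S (fun F => A4a w 1 ρ ↑F) * PQ (1/2) S (fun F => A4a v (2 * K) (16 * U) ↑F) :=
      Pr_indep (hbw ρ (by omega)) s3 d23 (fun F _ => A4a_local Finset.sdiff_subset F)
        (fun F _ => A4a_local Finset.Subset.rfl F)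
    have i1 : PQ (1/2) S (fun F => A4a v 1 ρ ↑F ∧
        (A4a w 1 ρ ↑F ∧ A4a v (2 * K) (16 * U) ↑F)) =
        PQ (1/2) S (fun F => A4a v 1 ρ ↑F) *
          PQ (1/2) S (fun F => A4a w 1 ρ ↑F ∧ A4a v (2 * K) (16 * U) ↑F) := by
      apply Pr_indep (hbv ρ (by omega)) (Finset.union_subset (hbw ρ (by omega)) s3)
        (Finset.disjoint_union_right.2 ⟨d12, d13⟩)
        (fun F _ => A4a_local Finset.sdiff_subset F)
      intro F _
      rw [A4a_local (T := blk w ρ ∪ (blk v (16 * U) \ blk v (2 * K)))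
          (Finset.sdiff_subset.trans Finset.subset_union_left) F,
        A4a_local (c := v) (T := blk w ρ ∪ (blk v (16 * U) \ blk v (2 * K)))
          Finset.subset_union_right F]
    have h1 : PQ (1/2) S (fun F => E4 L m v F ∧ E4 L m w F) ≤
        PQ (1/2) S (fun F => A4a v 1 ρ ↑F ∧ (A4a w 1 ρ ↑F ∧ A4a v (2 * K) (16 * U) ↑F)) :=
      Pr_mono okhalf (fun F _ hF =>
        ⟨E4_A4a (by omega) (by omega) le_rfl (by omega) (by omega) hF.1,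
          E4_A4a (by omega) (by omega) le_rfl (by omega) (by omega) hF.2,
          E4_A4a (by omega) (by omega) (by omega) (by omega) (by omega) hF.1⟩)
    rw [i1, i23] at h1
    have h2 := sum_bound hC (ρ := ρ) (K := K) (m := m) (U := U) hρ2 (by omega) (by omega) hmL
      (hA v 1 ρ le_rfl (by omega) S (hbv _ (by omega)))
      (hA w 1 ρ le_rfl (by omega) S (hbw _ (by omega)))
      (hA v (2 * K) (16 * U) (by omega) (by omega) S (hbv _ le_rfl))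
      (Pr_nonneg okhalf _ _) (Pr_nonneg okhalf _ _)
    have h3 := h1.trans h2
    have h7 : (((K : ℕ) : ℤ) : ℝ) = (K : ℝ) := by norm_cast
    rw [h7]
    have hK0 : 0 < (K : ℝ) ^ (-(5/4) : ℝ) := by
      apply Real.rpow_pos_of_pos
      have : 0 < K := by omega
      exact_mod_cast this
    have h5 : 0 ≤ C * (2 : ℝ) ^ (5/4 : ℝ) * ((K : ℝ) ^ (-(5/4) : ℝ) * (m : ℝ) ^ (-(5/4) : ℝ)) := by
      positivity
    linarith

end Pool.Agent.W52.DPTwo
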