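import Pool.Agent.W92.DP.Defs

/-!
# DP-IND: independence of the scales (helper52)
-/

set_option autoImplicit false

namespace Pool.Agent.W52.DPInd

open H974 H973 H12S H389NS H984P H984N Finset
open Pool.Agent.W92.DP

theorem mem_HA {U : ℤ} {y : Vtx} : y ∈ HA U ↔
    ((-(27 * U) ≤ y.1 ∧ y.1 ≤ 27 * U) ∧ (0 ≤ y.2 ∧ y.2 ≤ 39 * U)) ∧
      (y.1 ≤ -U ∨ U ≤ y.1 ∨ U ≤ y.2) := by
  unfold HA
  rw [Finset.mem_filter, Finset.mem_product, Finset.mem_Icc, Finset.mem_Icc]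

theorem mem_core4 {U : ℤ} {v : Vtx} : v ∈ core4 U ↔
    (-(10 * U) ≤ v.1 ∧ v.1 ≤ -(8 * U)) ∧ (17 * U ≤ v.2 ∧ v.2 ≤ 19 * U) := by
  unfold core4
  rw [Finset.mem_product, Finset.mem_Icc, Finset.mem_Icc]

theorem RE_sub_ES {S : Finset Vtx} {a b c d : ℤ}
    (h : ∀ x y, a ≤ x → x ≤ b → c ≤ y → y ≤ d → ((x, y) : Vtx) ∈ S) : RE a b c d ⊆ ES S := by
  intro e he
  rw [mem_ES]
  obtain ⟨x, y, _ | _⟩ := e
  · rw [mem_RE_false] at he
    rw [src_mk, tgt_false]
    exact ⟨h _ _ (by omega) (by omega) (by omega) (by omega),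
      h _ _ (by omega) (by omega) (by omega) (by omega)⟩
  · rw [mem_RE_true] at he
    rw [src_mk, tgt_true]
    exact ⟨h _ _ (by omega) (by omega) (by omega) (by omega),
      h _ _ (by omega) (by omega) (by omega) (by omega)⟩

theorem okhalf : Ok (fun _ : Edg => (1/2 : ℝ)) := okq (by norm_num) (by norm_num)

theorem RE_sub {U a b c d : ℤ} (h1 : -(27 * U) ≤ a) (h2 : b ≤ 27 * U) (h3 : 0 ≤ c)
    (h4 : d ≤ 39 * U) (h5 : b ≤ -U ∨ U ≤ a ∨ U ≤ c) : RE a b c d ⊆ SA U := by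
  unfold SA
  apply RE_sub_ES
  intro x y hx1 hx2 hy1 hy2
  rw [mem_HA]
  simp only
  omega

theorem sdiff_eq {F S T : Finset Edg} (hT : T ⊆ S) : T \ (F ∩ S) = T \ F := by
  ext e
  rw [Finset.mem_sdiff, Finset.mem_sdiff, Finset.mem_inter]
  constructor
  · rintro ⟨h1, h2⟩
    exact ⟨h1, fun h3 => h2 ⟨h3, hT h1⟩⟩
  · rintro ⟨h1, h2⟩
    exact ⟨h1, fun h3 => h2 h3.1⟩

/-- the box is inside -/
theorem tr_mem {U : ℤ} {v : Vtx} (hv : v ∈ core4 U) {N : ℕ} (hN : (N : ℤ) ≤ 16 * U) {e : Edg}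
    (he : e ∈ boxE N) : ((e.1 + v.1, e.2.1 + v.2, e.2.2) : Edg) ∈ SA U := by
  rw [mem_core4] at hv
  have h : RE (v.1 - N) (v.1 + N) (v.2 - N) (v.2 + N) ⊆ SA U :=
    RE_sub (by omega) (by omega) (by omega) (by omega) (by omega)
  apply h
  unfold boxE at he
  obtain ⟨x, y, _ | _⟩ := e
  · simp only [mem_RE_false] at he ⊢
    omega
  · simp only [mem_RE_true] at he ⊢
    omega

theorem XV_sub {b w N : ℕ} (hb : b ≤ N) (hw : w ≤ N) : XV b w N ⊆ boxE N := by
  unfold XV boxE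
  apply Finset.union_subset
  · exact RE_subset (by omega) (by omega) (by omega) (by omega)
  · exact RE_subset (by omega) (by omega) (by omega) (by omega)

theorem XH_sub {b w N : ℕ} (hb : b ≤ N) (hw : w ≤ N) : XH b w N ⊆ boxE N := by
  unfold XH boxE
  apply Finset.union_subset
  · exact RE_subset (by omega) (by omega) (by omega) (by omega)
  · exact RE_subset (by omega) (by omega) (by omega) (by omega)

theorem shc_inter {U : ℤ} {v : Vtx} (hv : v ∈ core4 U) {N : ℕ} (hN : (N : ℤ) ≤ 16 * U)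
    {X : Finset Edg} (hX : X ⊆ boxE N) (F : Finset Edg) :
    shc v ↑(F ∩ SA U) ∩ ↑X = shc v ↑F ∩ (↑X : Set Edg) := by
  ext e
  unfold shc
  constructor
  · rintro ⟨h1, h2⟩
    have h3 : ((e.1 + v.1, e.2.1 + v.2, e.2.2) : Edg) ∈ (↑(F ∩ SA U) : Set Edg) := h1
    rw [Finset.coe_inter] at h3
    exact ⟨h3.1, h2⟩
  · rintro ⟨h1, h2⟩
    have h3 : ((e.1 + v.1, e.2.1 + v.2, e.2.2) : Edg) ∈ (↑(F ∩ SA U) : Set Edg) := by
      rw [Finset.coe_inter]
      exact ⟨h1, tr_mem hv hN (hX h2)⟩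
    exact ⟨h3, h2⟩

theorem plus_local {U : ℤ} {v : Vtx} (hv : v ∈ core4 U) {b w N : ℕ} (hN : (N : ℤ) ≤ 16 * U)
    (hb : b ≤ N) (hw : w ≤ N) (e : Edg) (F : Finset Edg) :
    Plus b w N e (shc v ↑F) ↔ Plus b w N e (shc v ↑(F ∩ SA U)) := by
  unfold Plus
  rw [shc_inter hv hN (XV_sub hb hw), shc_inter hv hN (XH_sub hb hw)]

theorem E4_local {L m : ℕ} (hL : 1 ≤ L) (hm : 1 ≤ m) {v : Vtx} (hv : v ∈ core4 (L * m : ℕ))
    (F : Finset Edg) : E4 L m v F ↔ E4 L m v (F ∩ SA (L * m : ℕ)) := by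
  have hmL : m ≤ L * m := Nat.le_mul_of_pos_left m hL
  have e4 : 4 * L * m = 4 * (L * m) := by ring
  have e16 : 16 * L * m = 16 * (L * m) := by ring
  have hN : ((16 * L * m : ℕ) : ℤ) ≤ 16 * ((L * m : ℕ) : ℤ) := by
    rw [e16]; push_cast; exact le_rfl
  unfold E4
  apply exists_congr
  intro β
  rw [← plus_local hv hN (by omega) (by omega) (e0 β) F, Finset.mem_inter]
  have hmem : ((v.1, v.2, β) : Edg) ∈ SA (L * m : ℕ) := by
    have h1 : e0 β ∈ boxE (16 * L * m) := by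
      unfold e0 boxE
      cases β
      · rw [mem_RE_false]; omega
      · rw [mem_RE_true]; omega
    have h2 := tr_mem hv hN h1
    simpa [e0] using h2
  constructor
  · rintro ⟨h1, h2⟩
    exact ⟨h1, h2, hmem⟩
  · rintro ⟨h1, h2, _⟩
    exact ⟨h1, h2⟩

theorem GO_local {U : ℤ} (hU : 1 ≤ U) (F : Finset Edg) : GO U F ↔ GO U (F ∩ SA U) := by
  unfold GO
  rw [← LRc_local (LRE_subset_RE.trans (RE_sub (by omega) (by omega) (by omega) (by omega)
      (by omega))),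
    ← TBc_local (TBE_subset_RE.trans (RE_sub (by omega) (by omega) (by omega) (by omega)
      (by omega)))]

theorem DTB_local {S : Finset Edg} {a b c d : ℤ} (h : LRE a b c d ⊆ S) (F : Finset Edg) :
    DTB a b c d F ↔ DTB a b c d (F ∩ S) := by
  unfold DTB
  rw [sdiff_eq h]

theorem DLR_local {S : Finset Edg} {a b c d : ℤ} (h : TBE a b c d ⊆ S) (F : Finset Edg) :
    DLR a b c d F ↔ DLR a b c d (F ∩ S) := by
  unfold DLR
  rw [sdiff_eq h]

theorem GD_local {U : ℤ} (hU : 1 ≤ U) (F : Finset Edg) : GD U F ↔ GD U (F ∩ SA U) := by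
  unfold GD
  rw [← DTB_local (S := SA U) (LRE_subset_RE.trans (RE_sub (by omega) (by omega) (by omega)
      (by omega) (by omega))),
    ← DLR_local (S := SA U) (TBE_subset_RE.trans (RE_sub (by omega) (by omega) (by omega)
      (by omega) (by omega))),
    ← DTB_local (S := SA U) (LRE_subset_RE.trans (RE_sub (by omega) (by omega) (by omega)
      (by omega) (by omega)))]

theorem V4_local {L m : ℕ} (hL : 1 ≤ L) (hm : 1 ≤ m) (F : Finset Edg) :
    V4 L m F = V4 L m (F ∩ SA (L * m : ℕ)) := by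
  classical
  unfold V4
  apply Finset.filter_congr
  intro v hv
  exact E4_local hL hm hv F

theorem Gd4_local {c0 E0 t : ℝ} {L m : ℕ} (hL : 1 ≤ L) (hm : 1 ≤ m) (F : Finset Edg) :
    Gd4 c0 E0 t L m F ↔ Gd4 c0 E0 t L m (F ∩ SA (L * m : ℕ)) := by
  have hU : (1 : ℤ) ≤ ((L * m : ℕ) : ℤ) := by
    have : 0 < L * m := Nat.mul_pos hL hm
    omega
  unfold Gd4 En4
  rw [← V4_local hL hm F, ← GO_local hU F, ← GD_local hU F]

theorem SA_disj {U U' : ℤ} (hU : 1 ≤ U) (hU' : 64 * U ≤ U') : Disjoint (SA U) (SA U') := by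
  rw [Finset.disjoint_left]
  intro e h1 h2
  unfold SA at h1 h2
  rw [mem_ES] at h1 h2
  have h3 := mem_HA.mp h1.1
  have h4 := mem_HA.mp h2.1
  omega

theorem ind : St_ind := by
  intro p c0 E0 t L M r hp hL hM hr hG J
  induction J with
  | zero =>
    intro S _
    rw [pow_zero]
    exact Pr_le_one okhalf _ _
  | succ J ih =>
    intro S hS
    have hrj : ∀ j : ℕ, 1 ≤ 64 ^ j * r := fun j => Nat.mul_pos (by positivity) hr
    have hmj : ∀ j : ℕ, 1 ≤ M * (64 ^ j * r) := fun j => Nat.mul_pos (by omega) (hrj j)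
    have hUj : ∀ j : ℕ, (1 : ℤ) ≤ ((L * (M * (64 ^ j * r)) : ℕ) : ℤ) := by
      intro j
      have := Nat.mul_pos (show 0 < L by omega) (hmj j)
      omega
    set T : Finset Edg := (Finset.range J).biUnion
      (fun j => SA (L * (M * (64 ^ j * r)) : ℕ)) with hT
    have hTS : T ⊆ S := by
      rw [hT, Finset.biUnion_subset]
      intro j hj
      exact hS j (by have := Finset.mem_range.mp hj; omega)
    have hdis : Disjoint T (SA (L * (M * (64 ^ J * r)) : ℕ)) := by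
      rw [hT, Finset.disjoint_biUnion_left]
      intro j hj
      have hj' := Finset.mem_range.mp hj
      apply SA_disj (hUj j)
      have h1 : 64 ^ (j + 1) ≤ 64 ^ J := pow_le_pow_right₀ (by norm_num) hj'
      have h2 : 64 * (L * (M * (64 ^ j * r))) ≤ L * (M * (64 ^ J * r)) := by
        calc 64 * (L * (M * (64 ^ j * r))) = L * (M * (64 ^ (j + 1) * r)) := by ring
          _ ≤ L * (M * (64 ^ J * r)) :=
            Nat.mul_le_mul_left _ (Nat.mul_le_mul_left _ (Nat.mul_le_mul_right _ h1))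
      exact_mod_cast h2
    have hA : ∀ F : Finset Edg, F ⊆ S → ((∀ j < J, ¬ Gd4 c0 E0 t L (M * (64 ^ j * r)) F) ↔
        ∀ j < J, ¬ Gd4 c0 E0 t L (M * (64 ^ j * r)) (F ∩ T)) := by
      intro F _
      refine forall_congr' fun j => ?_
      refine forall_congr' fun hj => ?_
      have hsub : SA (L * (M * (64 ^ j * r)) : ℕ) ⊆ T := by
        rw [hT]
        exact Finset.subset_biUnion_of_mem (fun j => SA (L * (M * (64 ^ j * r)) : ℕ))
          (Finset.mem_range.mpr hj)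
      rw [Gd4_local (by omega) (hmj j) F, Gd4_local (by omega) (hmj j) (F ∩ T),
        Finset.inter_assoc, Finset.inter_eq_right.mpr hsub]
    have hB : ∀ F : Finset Edg, F ⊆ S → (¬ Gd4 c0 E0 t L (M * (64 ^ J * r)) F ↔
        ¬ Gd4 c0 E0 t L (M * (64 ^ J * r)) (F ∩ SA (L * (M * (64 ^ J * r)) : ℕ))) := by
      intro F _
      rw [← Gd4_local (by omega) (hmj J) F]
    have h1 : PQ (1/2) S (fun F => ∀ j < J + 1, ¬ Gd4 c0 E0 t L (M * (64 ^ j * r)) F) =
        PQ (1/2) S (fun F => (∀ j < J, ¬ Gd4 c0 E0 t L (M * (64 ^ j * r)) F) ∧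
          ¬ Gd4 c0 E0 t L (M * (64 ^ J * r)) F) := by
      apply Pr_congr
      intro F _
      constructor
      · intro h2
        exact ⟨fun j hj => h2 j (by omega), h2 J (by omega)⟩
      · rintro ⟨h2, h3⟩ j hj
        rcases Nat.lt_or_ge j J with h4 | h4
        · exact h2 j h4
        · have : j = J := by omega
          subst this
          exact h3
    rw [h1]
    have h2 : PQ (1/2) S (fun F => (∀ j < J, ¬ Gd4 c0 E0 t L (M * (64 ^ j * r)) F) ∧
          ¬ Gd4 c0 E0 t L (M * (64 ^ J * r)) F) =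
        PQ (1/2) S (fun F => ∀ j < J, ¬ Gd4 c0 E0 t L (M * (64 ^ j * r)) F) *
          PQ (1/2) S (fun F => ¬ Gd4 c0 E0 t L (M * (64 ^ J * r)) F) :=
      Pr_indep hTS (hS J (by omega)) hdis hA hB
    rw [h2, pow_succ]
    have h3 := ih S (fun j hj => hS j (by omega))
    have h4 : PQ (1/2) S (fun F => ¬ Gd4 c0 E0 t L (M * (64 ^ J * r)) F) ≤ 1 - p := by
      have h5 : PQ (1/2) S (fun F => ¬ Gd4 c0 E0 t L (M * (64 ^ J * r)) F) =
        1 - PQ (1/2) S (Gd4 c0 E0 t L (M * (64 ^ J * r))) := Pr_not _ _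
      rw [h5]
      have := hG (64 ^ J * r) (hrj J) S (hS J (by omega))
      linarith
    have h5 : 0 ≤ PQ (1/2) S (fun F => ¬ Gd4 c0 E0 t L (M * (64 ^ J * r)) F) :=
      Pr_nonneg okhalf _ _
    have h6 : (0 : ℝ) ≤ (1 - p) ^ J := pow_nonneg (by linarith) _
    exact mul_le_mul h3 h4 h5 h6

end Pool.Agent.W52.DPInd
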