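import Pool.Agent.W52.DPInd
import Pool.Agent.H934R3.D74.T1

/-!
# DP-ONE: gluing and the one-point lower bound (helper52)
-/

set_option autoImplicit false

namespace Pool.Agent.W52.DPOne

open H974 H973 H12S H389NS H984P H984N Finset
open Pool.Agent.W92.DP Pool.Agent.W52.DPInd

/-- shift of an edge -/
def sh (v : Vtx) (e : Edg) : Edg := (e.1 + v.1, e.2.1 + v.2, e.2.2)

theorem cn_mono {I J : Set Vtx} {F G : Set Edg} (h : F ⊆ G) (hF : Cn I J F) : Cn I J G := by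
  obtain ⟨u, hu, v, hv, hr⟩ := hF
  exact ⟨u, hu, v, hv, hr.mono h⟩

theorem plus_mono {b w N : ℕ} {e : Edg} {F G : Set Edg} (h1 : ∀ g ∈ XV b w N, g ∈ F → g ∈ G)
    (h2 : ∀ g ∈ XH b w N, g ∈ G → g ∈ F) (h : Plus b w N e F) : Plus b w N e G := by
  refine ⟨cn_mono ?_ h.1, fun hc => h.2 (cn_mono ?_ hc)⟩
  · apply Set.insert_subset_insert
    rintro g ⟨hg1, hg2⟩
    exact ⟨h1 g hg2 hg1, hg2⟩
  · rintro g ⟨hg1 | hg1, hg2⟩
    · exact ⟨Or.inl ⟨h2 g hg1.2 hg1.1, hg1.2⟩, hg2⟩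
    · exact ⟨Or.inr hg1, hg2⟩

theorem E4_mono {L m : ℕ} (hL : 1 ≤ L) (hm : 1 ≤ m) {v : Vtx} {F G : Finset Edg}
    (h1 : ∀ g ∈ XV (4 * L * m) m (16 * L * m), sh v g ∈ F → sh v g ∈ G)
    (h2 : ∀ g ∈ XH (4 * L * m) m (16 * L * m), sh v g ∈ G → sh v g ∈ F)
    (h : E4 L m v F) : E4 L m v G := by
  obtain ⟨β, hp, hv⟩ := h
  refine ⟨β, plus_mono (fun g hg hgF => ?_) (fun g hg hgG => ?_) hp, ?_⟩
  · exact Finset.mem_coe.2 (h1 g hg (Finset.mem_coe.1 hgF))
  · exact Finset.mem_coe.2 (h2 g hg (Finset.mem_coe.1 hgG))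
  · have hpos : 0 < L * m := Nat.mul_pos hL hm
    have e4 : 4 * L * m = 4 * (L * m) := by ring
    have hmem : e0 β ∈ XV (4 * L * m) m (16 * L * m) := by
      unfold XV
      apply Finset.mem_union_left
      unfold e0 boxE
      cases β
      · rw [mem_RE_false]; omega
      · rw [mem_RE_true]; omega
    have h3 := h1 (e0 β) hmem
    simp only [sh, e0, zero_add] at h3
    exact h3 hv

/-! ### the one-point lower bound without the crossings -/

theorem shc_mp (v : Vtx) (F : Finset Edg) : shc v ↑((trl v.1 v.2).mp F) = (↑F : Set Edg) := by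
  ext ⟨x, y, b⟩
  unfold shc
  change ((x + v.1, y + v.2, b) : Edg) ∈ (↑((trl v.1 v.2).mp F) : Set Edg) ↔ _
  rw [Finset.mem_coe, LSym.mem_mp, trl_φs, Finset.mem_coe]
  rw [add_sub_cancel_right, add_sub_cancel_right]

theorem pr_mem (e : Edg) : PQ (1/2) {e} (fun F => e ∈ F) = 1 / 2 := by
  unfold PQ Pr
  have h : ({e} : Finset Edg) = insert e ∅ := rfl
  rw [h, Ex_insert _ (Finset.notMem_empty e), Ex_empty, Ex_empty]
  rw [ind_of (Finset.mem_insert_self _ _), ind_not_of (Finset.notMem_empty _)]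
  ring

theorem plus_e {b w N : ℕ} {e : Edg} {F : Finset Edg} (hF : F ⊆ boxE N) :
    Plus b w N e ↑F ↔ Plus b w N e ↑(F ∩ (boxE N \ {e})) := by
  have h1 : insert e ((↑F : Set Edg) ∩ ↑(XV b w N)) =
      insert e ((↑(F ∩ (boxE N \ {e})) : Set Edg) ∩ ↑(XV b w N)) := by
    ext g
    simp only [Set.mem_insert_iff, Set.mem_inter_iff, Finset.mem_coe, Finset.mem_inter,
      Finset.mem_sdiff, Finset.mem_singleton]
    constructor
    · rintro (h | ⟨h1, h2⟩)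
      · exact Or.inl h
      · by_cases hg : g = e
        · exact Or.inl hg
        · exact Or.inr ⟨⟨h1, hF h1, hg⟩, h2⟩
    · rintro (h | ⟨⟨h1, _⟩, h2⟩)
      · exact Or.inl h
      · exact Or.inr ⟨h1, h2⟩
  have h2 : (((↑F : Set Edg) ∩ ↑(XH b w N)) ∪ ↑(boxE N \ XH b w N)) \ {e} =
      (((↑(F ∩ (boxE N \ {e})) : Set Edg) ∩ ↑(XH b w N)) ∪ ↑(boxE N \ XH b w N)) \ {e} := by
    ext g
    simp only [Set.mem_sdiff, Set.mem_union, Set.mem_inter_iff, Finset.mem_coe, Finset.mem_inter,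
      Finset.mem_sdiff, Finset.mem_singleton, Set.mem_singleton_iff]
    constructor
    · rintro ⟨⟨h1, h2⟩ | h1, h3⟩
      · exact ⟨Or.inl ⟨⟨h1, hF h1, h3⟩, h2⟩, h3⟩
      · exact ⟨Or.inr h1, h3⟩
    · rintro ⟨⟨⟨h1, _⟩, h2⟩ | h1, h3⟩
      · exact ⟨Or.inl ⟨h1, h2⟩, h3⟩
      · exact ⟨Or.inr h1, h3⟩
  unfold Plus
  rw [h1, h2]

theorem pr_plus_e {b w N : ℕ} {e : Edg} (he : e ∈ boxE N) :
    PQ (1/2) (boxE N) (fun F => Plus b w N e ↑F ∧ e ∈ F) =
      PQ (1/2) (boxE N) (fun F => Plus b w N e ↑F) * (1 / 2) := by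
  have h1 : PQ (1/2) (boxE N) (fun F => e ∈ F) = 1 / 2 := by
    refine Eq.trans ?_ (pr_mem e)
    apply Pr_local (Finset.singleton_subset_iff.2 he)
    intro F _
    rw [Finset.mem_inter, Finset.mem_singleton]
    exact ⟨fun h => ⟨h, rfl⟩, fun h => h.1⟩
  have h2 : PQ (1/2) (boxE N) (fun F => Plus b w N e ↑F ∧ e ∈ F) =
      PQ (1/2) (boxE N) (fun F => Plus b w N e ↑F) * PQ (1/2) (boxE N) (fun F => e ∈ F) := by
    apply Pr_indep (S := boxE N \ {e}) (T := {e}) Finset.sdiff_subset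
      (Finset.singleton_subset_iff.2 he) Finset.sdiff_disjoint
    · intro F hF
      exact plus_e hF
    · intro F _
      rw [Finset.mem_inter, Finset.mem_singleton]
      exact ⟨fun h => ⟨h, rfl⟩, fun h => h.1⟩
  rw [h2, h1]

theorem one_point {L m : ℕ} (hL : 1 ≤ L) (hm : 1 ≤ m) {v : Vtx} (hv : v ∈ core4 (L * m : ℕ))
    {S : Finset Edg} (hS : SA (L * m : ℕ) ⊆ S) (β : Bool) :
    PQ (1/2) (boxE (16 * L * m))
      (fun F => Plus (4 * L * m) m (16 * L * m) (e0 β) ↑F) * (1 / 2) ≤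
      PQ (1/2) S (fun F => E4 L m v F) := by
  have hmL : m ≤ L * m := Nat.le_mul_of_pos_left m hL
  have e16 : 16 * L * m = 16 * (L * m) := by ring
  have hN : ((16 * L * m : ℕ) : ℤ) ≤ 16 * ((L * m : ℕ) : ℤ) := by
    rw [e16]; push_cast; exact le_rfl
  have he : e0 β ∈ boxE (16 * L * m) := by
    unfold e0 boxE
    cases β
    · rw [mem_RE_false]; omega
    · rw [mem_RE_true]; omega
  rw [← pr_plus_e he]
  have hTS : (trl v.1 v.2).mp (boxE (16 * L * m)) ⊆ S := by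
    refine Finset.Subset.trans ?_ hS
    intro e hE
    rw [LSym.mem_mp] at hE
    obtain ⟨x, y, b⟩ := e
    rw [trl_φs] at hE
    have := tr_mem hv hN hE
    simpa using this
  have h1 : PQ (1/2) S (fun F => Plus (4 * L * m) m (16 * L * m) (e0 β) (shc v ↑F) ∧
      ((v.1, v.2, β) : Edg) ∈ F) =
      PQ (1/2) ((trl v.1 v.2).mp (boxE (16 * L * m)))
        (fun F => Plus (4 * L * m) m (16 * L * m) (e0 β) (shc v ↑F) ∧
          ((v.1, v.2, β) : Edg) ∈ F) := by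
    apply Pr_local hTS
    intro F _
    have hb : 4 * L * m ≤ 16 * L * m := by
      have : 4 * L * m = 4 * (L * m) := by ring
      omega
    have hin : ∀ g ∈ boxE (16 * L * m), sh v g ∈ (trl v.1 v.2).mp (boxE (16 * L * m)) := by
      rintro ⟨x, y, b⟩ hg
      rw [LSym.mem_mp]
      simp only [sh, trl_φs, add_sub_cancel_right]
      exact hg
    constructor
    · rintro ⟨h2, h3⟩
      refine ⟨plus_mono (fun g hg hgF => ?_) (fun g hg hgG => ?_) h2, ?_⟩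
      · exact Finset.mem_coe.2 (Finset.mem_inter.2 ⟨Finset.mem_coe.1 hgF,
          hin g (XV_sub hb (by omega) hg)⟩)
      · exact Finset.mem_coe.2 (Finset.mem_inter.1 (Finset.mem_coe.1 hgG)).1
      · have := hin (e0 β) he
        simp only [sh, e0, zero_add] at this
        exact Finset.mem_inter.2 ⟨h3, this⟩
    · rintro ⟨h2, h3⟩
      refine ⟨plus_mono (fun g hg hgF => ?_) (fun g hg hgG => ?_) h2, ?_⟩
      · exact Finset.mem_coe.2 (Finset.mem_inter.1 (Finset.mem_coe.1 hgF)).1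
      · exact Finset.mem_coe.2 (Finset.mem_inter.2 ⟨Finset.mem_coe.1 hgG,
          hin g (XH_sub hb (by omega) hg)⟩)
      · exact (Finset.mem_inter.1 h3).1
  have h2 : PQ (1/2) ((trl v.1 v.2).mp (boxE (16 * L * m)))
        (fun F => Plus (4 * L * m) m (16 * L * m) (e0 β) (shc v ↑F) ∧
          ((v.1, v.2, β) : Edg) ∈ F) =
      PQ (1/2) (boxE (16 * L * m))
        (fun F => Plus (4 * L * m) m (16 * L * m) (e0 β) ↑F ∧ e0 β ∈ F) := by
    unfold PQ
    rw [LSym.pr]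
    apply Pr_congr
    intro F _
    rw [shc_mp, LSym.mem_mp, trl_φs, sub_self, sub_self]
    rfl
  rw [← h2, ← h1]
  apply Pr_mono H973.okhalf
  rintro F _ ⟨h3, h4⟩
  exact ⟨β, h3, h4⟩

/-! ### the crossings -/

theorem DTB_of {a b c d : ℤ} (hab : a ≤ b) (hcd : c ≤ d) {F : Finset Edg}
    (hF : ¬ LRc a b c d F) : DTB a b c d F := by
  set W : Vtx → Prop := fun v => ∃ y, (c ≤ y ∧ y ≤ d) ∧
    Reach (↑F ∩ ↑(LRE a b c d)) (a, y) v with hW
  have hL : ∀ y, c ≤ y → y ≤ d → W (a, y) :=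
    fun y h3 h4 => ⟨y, ⟨h3, h4⟩, Reach.refl _ _⟩
  have hR : ∀ y, c ≤ y → y ≤ d → ¬ W (b, y) := by
    rintro y h3 h4 ⟨y0, h5, h6⟩
    exact hF ⟨y0, y, h5, ⟨h3, h4⟩, h6⟩
  obtain ⟨x, x', hx, hx', hr⟩ := dual_crossing hab hcd W hL hR
  refine ⟨x, x', hx, hx', ?_⟩
  refine DReach.mono ?_ hr
  rintro e ⟨he1, he2⟩
  rw [Finset.coe_sdiff]
  refine ⟨he2, ?_⟩
  intro heF
  apply he1
  constructor
  · rintro ⟨y, h3, h4⟩
    exact ⟨y, h3, h4.trans (Adj.reach ⟨e, ⟨heF, he2⟩, Or.inl ⟨rfl, rfl⟩⟩)⟩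
  · rintro ⟨y, h3, h4⟩
    exact ⟨y, h3, h4.trans (Adj.reach ⟨e, ⟨heF, he2⟩, Or.inr ⟨rfl, rfl⟩⟩)⟩

theorem DLR_of {a b c d : ℤ} (hab : a ≤ b) (hcd : c ≤ d) {F : Finset Edg}
    (hF : ¬ TBc a b c d F) : DLR a b c d F := by
  have h1 : ¬ LRc c d a b (tps.mp F) := fun h => hF (LRc_tps_iff.1 h)
  obtain ⟨y, y', hy, hy', hr⟩ := DTB_of hcd hab h1
  refine ⟨y, y', hy, hy', ?_⟩
  have h2 := DReach_tps hr
  rw [tps_ψ, tps_ψ] at h2
  refine h2.mono ?_
  rintro _ ⟨⟨x0, y0, b0⟩, he, rfl⟩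
  rw [Finset.mem_coe, Finset.mem_sdiff, LSym.mem_mp, tps_φs] at he
  rw [tps_φ, Finset.mem_coe, Finset.mem_sdiff]
  refine ⟨?_, he.2⟩
  have h3 : ((x0, y0, b0) : Edg) ∈ LRE c d a b := he.1
  have h4 : TBE a b c d = tps.mp (LRE c d a b) := by rw [tps_LRE]
  rw [h4, LSym.mem_mp, tps_φs, Bool.not_not]
  exact h3

theorem DTB_decr {a b c d : ℤ} {F G : Finset Edg} (h : F ⊆ G) (hG : DTB a b c d G) :
    DTB a b c d F := by
  obtain ⟨x, x', h1, h2, h3⟩ := hG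
  refine ⟨x, x', h1, h2, h3.mono ?_⟩
  intro e he
  rw [Finset.mem_coe, Finset.mem_sdiff] at he ⊢
  exact ⟨he.1, fun hF => he.2 (h hF)⟩

theorem DLR_decr {a b c d : ℤ} {F G : Finset Edg} (h : F ⊆ G) (hG : DLR a b c d G) :
    DLR a b c d F := by
  obtain ⟨x, x', h1, h2, h3⟩ := hG
  refine ⟨x, x', h1, h2, h3.mono ?_⟩
  intro e he
  rw [Finset.mem_coe, Finset.mem_sdiff] at he ⊢
  exact ⟨he.1, fun hF => he.2 (h hF)⟩

theorem pr_GO {U : ℤ} (hU : 2 ≤ U) {S : Finset Edg} (hS : SA U ⊆ S) :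
    dlt * dlt ≤ PQ (1/2) S (GO U) := by
  have hd0 := dlt_pos
  have s1 : LRE (-(17 * U)) (-U) (4 * U) (12 * U) ⊆ S :=
    (LRE_subset_RE.trans (RE_sub (by omega) (by omega) (by omega) (by omega) (by omega))).trans hS
  have s2 : TBE (-(17 * U)) (-U) 0 (12 * U) ⊆ S :=
    (TBE_subset_RE.trans (RE_sub (by omega) (by omega) (by omega) (by omega) (by omega))).trans hS
  have p1 : dlt ≤ PQ (1/2) S (LRc (-(17 * U)) (-U) (4 * U) (12 * U)) := by
    have e : PQ (1/2) S (LRc (-(17 * U)) (-U) (4 * U) (12 * U)) =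
      hh (1/2) (-U - -(17 * U)) (12 * U - 4 * U) := pr_LRc (1/2) s1
    rw [e]
    exact rswL (m := U) (by omega) (by omega) (by omega) (by omega)
  have p2 : dlt ≤ PQ (1/2) S (TBc (-(17 * U)) (-U) 0 (12 * U)) := by
    have e : PQ (1/2) S (TBc (-(17 * U)) (-U) 0 (12 * U)) =
      hh (1/2) (12 * U - 0) (-U - -(17 * U)) := pr_TBc (1/2) s2
    rw [e]
    exact rswL (m := U) (by omega) (by omega) (by omega) (by omega)
  have p3 : PQ (1/2) S (LRc (-(17 * U)) (-U) (4 * U) (12 * U)) *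
      PQ (1/2) S (TBc (-(17 * U)) (-U) 0 (12 * U)) ≤ PQ (1/2) S (GO U) :=
    Pr_harris H973.okhalf (LRc_incr _ _ _ _ _) (TBc_incr _ _ _ _ _)
  refine le_trans ?_ p3
  exact mul_le_mul p1 p2 hd0.le (hd0.le.trans p1)

theorem pr_GD {U : ℤ} (hU : 2 ≤ U) {S : Finset Edg} (hS : SA U ⊆ S) :
    dlt * (dlt * dlt) ≤ PQ (1/2) S (GD U) := by
  have hd0 := dlt_pos
  have e3 : (1:ℝ) - 1/2 = 1/2 := by norm_num
  have s1 : LRE U (6 * U) 0 (38 * U) ⊆ S :=
    (LRE_subset_RE.trans (RE_sub (by omega) (by omega) (by omega) (by omega) (by omega))).trans hS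
  have s2 : TBE (-(24 * U)) (6 * U) (36 * U) (38 * U) ⊆ S :=
    (TBE_subset_RE.trans (RE_sub (by omega) (by omega) (by omega) (by omega) (by omega))).trans hS
  have s3 : LRE (-(24 * U)) (-(19 * U)) (12 * U) (38 * U) ⊆ S :=
    (LRE_subset_RE.trans (RE_sub (by omega) (by omega) (by omega) (by omega) (by omega))).trans hS
  have p1 : dlt ≤ 1 - PQ (1/2) S (LRc U (6 * U) 0 (38 * U)) := by
    have e : PQ (1/2) S (LRc U (6 * U) 0 (38 * U)) =
      hh (1/2) (6 * U - U) (38 * U - 0) := pr_LRc (1/2) s1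
    have e2 := hh_dual (q := 1/2) (w := 6 * U - U) (h := 38 * U - 0) (by omega) (by omega)
    rw [e3] at e2
    have e4 := rswL (m := U) (w := 38 * U - 0 + 1) (h := 6 * U - U - 1)
      (by omega) (by omega) (by omega) (by omega)
    rw [e, e2]
    linarith
  have p2 : dlt ≤ 1 - PQ (1/2) S (TBc (-(24 * U)) (6 * U) (36 * U) (38 * U)) := by
    have e : PQ (1/2) S (TBc (-(24 * U)) (6 * U) (36 * U) (38 * U)) =
      hh (1/2) (38 * U - 36 * U) (6 * U - -(24 * U)) := pr_TBc (1/2) s2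
    have e2 := hh_dual (q := 1/2) (w := 38 * U - 36 * U) (h := 6 * U - -(24 * U)) (by omega)
      (by omega)
    rw [e3] at e2
    have e4 := rswL (m := U - 1) (w := 6 * U - -(24 * U) + 1) (h := 38 * U - 36 * U - 1)
      (by omega) (by omega) (by omega) (by omega)
    rw [e, e2]
    linarith
  have p3 : dlt ≤ 1 - PQ (1/2) S (LRc (-(24 * U)) (-(19 * U)) (12 * U) (38 * U)) := by
    have e : PQ (1/2) S (LRc (-(24 * U)) (-(19 * U)) (12 * U) (38 * U)) =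
      hh (1/2) (-(19 * U) - -(24 * U)) (38 * U - 12 * U) := pr_LRc (1/2) s3
    have e2 := hh_dual (q := 1/2) (w := -(19 * U) - -(24 * U)) (h := 38 * U - 12 * U) (by omega)
      (by omega)
    rw [e3] at e2
    have e4 := rswL (m := U) (w := 38 * U - 12 * U + 1) (h := -(19 * U) - -(24 * U) - 1)
      (by omega) (by omega) (by omega) (by omega)
    rw [e, e2]
    linarith
  have q1 : (1 - PQ (1/2) S (TBc (-(24 * U)) (6 * U) (36 * U) (38 * U))) *
      (1 - PQ (1/2) S (LRc (-(24 * U)) (-(19 * U)) (12 * U) (38 * U))) ≤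
      PQ (1/2) S (fun F => ¬ TBc (-(24 * U)) (6 * U) (36 * U) (38 * U) F ∧
        ¬ LRc (-(24 * U)) (-(19 * U)) (12 * U) (38 * U) F) :=
    Pr_harris_dd H973.okhalf (TBc_incr _ _ _ _ _) (LRc_incr _ _ _ _ _)
  have q2 : (1 - PQ (1/2) S (LRc U (6 * U) 0 (38 * U))) *
      (1 - PQ (1/2) S (fun F => TBc (-(24 * U)) (6 * U) (36 * U) (38 * U) F ∨
        LRc (-(24 * U)) (-(19 * U)) (12 * U) (38 * U) F)) ≤
      PQ (1/2) S (fun F => ¬ LRc U (6 * U) 0 (38 * U) F ∧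
        ¬ (TBc (-(24 * U)) (6 * U) (36 * U) (38 * U) F ∨
          LRc (-(24 * U)) (-(19 * U)) (12 * U) (38 * U) F)) := by
    apply Pr_harris_dd H973.okhalf (LRc_incr _ _ _ _ _)
    intro F G hFG _ h
    rcases h with h | h
    · exact Or.inl (h.mono hFG)
    · exact Or.inr (h.mono hFG)
  have q3 : (1 - PQ (1/2) S (fun F => TBc (-(24 * U)) (6 * U) (36 * U) (38 * U) F ∨
        LRc (-(24 * U)) (-(19 * U)) (12 * U) (38 * U) F)) =
      PQ (1/2) S (fun F => ¬ TBc (-(24 * U)) (6 * U) (36 * U) (38 * U) F ∧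
        ¬ LRc (-(24 * U)) (-(19 * U)) (12 * U) (38 * U) F) := by
    have := Pr_not (p := fun _ : Edg => (1/2 : ℝ)) S
      (fun F => TBc (-(24 * U)) (6 * U) (36 * U) (38 * U) F ∨
        LRc (-(24 * U)) (-(19 * U)) (12 * U) (38 * U) F)
    unfold PQ
    rw [← this]
    apply Pr_congr
    intro F _
    rw [not_or]
  have q4 : PQ (1/2) S (fun F => ¬ LRc U (6 * U) 0 (38 * U) F ∧
        ¬ (TBc (-(24 * U)) (6 * U) (36 * U) (38 * U) F ∨
          LRc (-(24 * U)) (-(19 * U)) (12 * U) (38 * U) F)) ≤ PQ (1/2) S (GD U) := by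
    apply Pr_mono H973.okhalf
    rintro F _ ⟨h1, h2⟩
    rw [not_or] at h2
    exact ⟨⟨DTB_of (by omega) (by omega) h1, DLR_of (by omega) (by omega) h2.1⟩,
      DTB_of (by omega) (by omega) h2.2⟩
  refine le_trans ?_ (q2.trans q4)
  apply mul_le_mul p1 _ (by positivity) (hd0.le.trans p1)
  rw [q3]
  refine le_trans ?_ q1
  exact mul_le_mul p2 p3 hd0.le (hd0.le.trans p2)

/-- the region of the dual crossings -/
noncomputable def R1 (U : ℤ) : Finset Edg :=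
  RE U (6 * U) 0 (38 * U) ∪ (RE (-(24 * U)) (6 * U) (36 * U) (38 * U) ∪
    RE (-(24 * U)) (-(19 * U)) (12 * U) (38 * U))

theorem R1_sub {U : ℤ} (hU : 1 ≤ U) : R1 U ⊆ SA U :=
  Finset.union_subset (RE_sub (by omega) (by omega) (by omega) (by omega) (by omega))
    (Finset.union_subset (RE_sub (by omega) (by omega) (by omega) (by omega) (by omega))
      (RE_sub (by omega) (by omega) (by omega) (by omega) (by omega)))

theorem XV_R1 {U : ℤ} (hU : 1 ≤ U) {v : Vtx} (hv : v ∈ core4 U) {b w N : ℕ}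
    (hb : (b : ℤ) = 4 * U) (hw : (w : ℤ) ≤ U) (hN : (N : ℤ) = 16 * U) {g : Edg}
    (hg : g ∈ XV b w N) : sh v g ∉ R1 U := by
  rw [mem_core4] at hv
  unfold XV boxE at hg
  unfold R1 sh
  obtain ⟨x, y, _ | _⟩ := g
  · simp only [Finset.mem_union, mem_RE_false] at hg ⊢
    omega
  · simp only [Finset.mem_union, mem_RE_true] at hg ⊢
    omega

theorem XH_R0 {U : ℤ} (hU : 1 ≤ U) {v : Vtx} (hv : v ∈ core4 U) {b w N : ℕ}
    (hb : (b : ℤ) = 4 * U) (hw : (w : ℤ) ≤ U) (hN : (N : ℤ) = 16 * U) {g : Edg}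
    (hg : g ∈ XH b w N) : sh v g ∉ RE (-(17 * U)) (-U) 0 (12 * U) := by
  rw [mem_core4] at hv
  unfold XH boxE at hg
  unfold sh
  obtain ⟨x, y, _ | _⟩ := g
  · simp only [Finset.mem_union, mem_RE_false] at hg ⊢
    omega
  · simp only [Finset.mem_union, mem_RE_true] at hg ⊢
    omega

theorem R0_R1 {U : ℤ} (hU : 1 ≤ U) {g : Edg} (hg : g ∈ RE (-(17 * U)) (-U) 0 (12 * U)) :
    g ∉ R1 U := by
  unfold R1
  obtain ⟨x, y, _ | _⟩ := g
  · simp only [Finset.mem_union, mem_RE_false] at hg ⊢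
    omega
  · simp only [Finset.mem_union, mem_RE_true] at hg ⊢
    omega

theorem GO_R0 {U : ℤ} (hU : 1 ≤ U) (F : Finset Edg) :
    GO U F ↔ GO U (F ∩ RE (-(17 * U)) (-U) 0 (12 * U)) := by
  unfold GO
  rw [← LRc_local (LRE_subset_RE.trans (RE_subset (by omega) (by omega) (by omega) (by omega))),
    ← TBc_local TBE_subset_RE]

theorem GD_R1 {U : ℤ} (F : Finset Edg) : GD U F ↔ GD U (F ∩ R1 U) := by
  unfold GD
  rw [← DTB_local (S := R1 U) (LRE_subset_RE.trans Finset.subset_union_left),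
    ← DLR_local (S := R1 U) (TBE_subset_RE.trans (Finset.subset_union_left.trans
      Finset.subset_union_right)),
    ← DTB_local (S := R1 U) (LRE_subset_RE.trans (Finset.subset_union_right.trans
      Finset.subset_union_right))]

theorem one : St_P → St_one := by
  rintro ⟨L, M, c, hL, hM, hc, hP⟩
  have hd0 := dlt_pos
  refine ⟨L, M, c * (1 / 2) * (dlt * dlt) * (dlt * (dlt * dlt)), hL, hM, by positivity, ?_⟩
  intro r hr v hv S hS
  have hm : 64 ≤ M * r := le_trans hM (Nat.le_mul_of_pos_right M hr)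
  have hmL : M * r ≤ L * (M * r) := Nat.le_mul_of_pos_left _ (by omega)
  set m := M * r with hmdef
  obtain ⟨U, hUdef⟩ : ∃ U : ℤ, U = ((L * m : ℕ) : ℤ) := ⟨_, rfl⟩
  have hU : 2 ≤ U := by rw [hUdef]; omega
  have e4 : 4 * L * m = 4 * (L * m) := by ring
  have e16 : 16 * L * m = 16 * (L * m) := by ring
  have hb : ((4 * L * m : ℕ) : ℤ) = 4 * U := by rw [e4, hUdef]; push_cast; rfl
  have hw : ((m : ℕ) : ℤ) ≤ U := by rw [hUdef]; omega
  have hN : ((16 * L * m : ℕ) : ℤ) = 16 * U := by rw [e16, hUdef]; push_cast; rfl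
  have hE : c * (m : ℝ) ^ (-(5/4) : ℝ) * (1 / 2) ≤ PQ (1/2) S (fun F => E4 L m v F) := by
    obtain ⟨β, hβ⟩ := hP r hr
    exact (mul_le_mul_of_nonneg_right hβ (by norm_num)).trans
      (one_point (by omega) (by omega) hv hS β)
  rw [← hUdef] at hv hS ⊢
  have hGO := pr_GO hU hS
  have hGD := pr_GD hU hS
  have hR0S : RE (-(17 * U)) (-U) 0 (12 * U) ⊆ S :=
    (RE_sub (by omega) (by omega) (by omega) (by omega) (by omega)).trans hS
  have hR1S : R1 U ⊆ S := (R1_sub (by omega)).trans hS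
  -- first gluing
  have g1 : PQ (1/2) S (fun F => E4 L m v F) * PQ (1/2) S (GO U) ≤
      PQ (1/2) S (fun F => E4 L m v F ∧ GO U F) := by
    apply H934F.t1a S (RE (-(17 * U)) (-U) 0 (12 * U)) (fun F => E4 L m v F) (GO U) hR0S
    · intro F G _ hFG hGF hF
      refine E4_mono (by omega) (by omega) (fun g _ h => hFG h) (fun g hg h => ?_) hF
      rcases Finset.mem_union.1 (hGF h) with h1 | h1
      · exact h1
      · exact absurd h1 (XH_R0 (by omega) hv hb hw hN hg)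
    · intro F G hFG hF
      exact ⟨hF.1.mono hFG, hF.2.mono hFG⟩
    · intro F
      exact GO_R0 (by omega) F
  have g2 : PQ (1/2) S (fun F => E4 L m v F ∧ GO U F) * PQ (1/2) S (GD U) ≤
      PQ (1/2) S (fun F => (E4 L m v F ∧ GO U F) ∧ GD U F) := by
    apply H934F.t1b S (R1 U) (fun F => E4 L m v F ∧ GO U F) (GD U) hR1S
    · rintro F G _ hGF hFG ⟨h1, h2⟩
      refine ⟨E4_mono (by omega) (by omega) (fun g hg h => ?_) (fun g _ h => hGF h) h1, ?_⟩
      · rcases Finset.mem_union.1 (hFG h) with h3 | h3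
        · exact h3
        · exact absurd h3 (XV_R1 (by omega) hv hb hw hN hg)
      · rw [GO_R0 (by omega)] at h2 ⊢
        have h3 : F ∩ RE (-(17 * U)) (-U) 0 (12 * U) ⊆ G ∩ RE (-(17 * U)) (-U) 0 (12 * U) := by
          intro g hg
          rw [Finset.mem_inter] at hg ⊢
          rcases Finset.mem_union.1 (hFG hg.1) with h3 | h3
          · exact ⟨h3, hg.2⟩
          · exact absurd h3 (R0_R1 (by omega) hg.2)
        exact ⟨h2.1.mono h3, h2.2.mono h3⟩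
    · rintro F G hFG ⟨⟨h1, h2⟩, h3⟩
      exact ⟨⟨DTB_decr hFG h1, DLR_decr hFG h2⟩, DTB_decr hFG h3⟩
    · intro F
      exact GD_R1 F
  have q0 : 0 ≤ PQ (1/2) S (fun F => E4 L m v F) := Pr_nonneg H973.okhalf _ _
  have q1 : 0 ≤ PQ (1/2) S (fun F => E4 L m v F ∧ GO U F) := Pr_nonneg H973.okhalf _ _
  have hmc : ((M * r : ℕ) : ℝ) = (m : ℝ) := by rw [hmdef]
  calc c * (1 / 2) * (dlt * dlt) * (dlt * (dlt * dlt)) * (m : ℝ) ^ (-(5/4) : ℝ)
      = ((c * (m : ℝ) ^ (-(5/4) : ℝ) * (1 / 2)) * (dlt * dlt)) * (dlt * (dlt * dlt)) := by ring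
    _ ≤ (PQ (1/2) S (fun F => E4 L m v F) * PQ (1/2) S (GO U)) * (dlt * (dlt * dlt)) := by
        apply mul_le_mul_of_nonneg_right _ (by positivity)
        exact mul_le_mul hE hGO (by positivity) q0
    _ ≤ PQ (1/2) S (fun F => E4 L m v F ∧ GO U F) * PQ (1/2) S (GD U) :=
        mul_le_mul g1 hGD (by positivity) q1
    _ ≤ PQ (1/2) S (fun F => (E4 L m v F ∧ GO U F) ∧ GD U F) := g2
    _ ≤ PQ (1/2) S (fun F => E4 L m v F ∧ GO U F ∧ GD U F) :=
        Pr_mono H973.okhalf (fun F _ hF => ⟨hF.1.1, hF.1.2, hF.2⟩)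

end Pool.Agent.W52.DPOne
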