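import Pool.Agent.W373.Unif.Statements

set_option autoImplicit false

namespace Pool.Agent.W52.UnifCfg7

open Pool.Agent.W373.Unif

/-- triples of spaces -/
abbrev Tr (p : ℕ) [Fact p.Prime] := Submodule (ZMod p) (W2 → ZMod p) ×
  Submodule (ZMod p) (W3 → ZMod p) × Submodule (ZMod p) (W4 → ZMod p)

section
variable {p : ℕ} [Fact p.Prime] {L : Type} [LieRing L] [LieAlgebra ℤ_[p] L] {x : X → L}

open Classical in
/-- the ideal attached to data -/
noncomputable def mk (M : Model ℤ_[p] L x) (m l : ℕ) (V : Tr p) : LieIdeal ℤ_[p] L :=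
  if h : ∃ I : LieIdeal ℤ_[p] L, (I : Set L) = idSet M m l V.1 V.2.1 V.2.2 then h.choose else ⊥

theorem mk_coe (M : Model ℤ_[p] L x) (m l : ℕ) (V : Tr p)
    (h : ∃ I : LieIdeal ℤ_[p] L, (I : Set L) = idSet M m l V.1 V.2.1 V.2.2) :
    (mk M m l V : Set L) = idSet M m l V.1 V.2.1 V.2.2 := by
  unfold mk
  rw [dif_pos h]
  exact h.choose_spec

theorem le3 {V2 : Submodule (ZMod p) (W2 → ZMod p)} {V3 : Submodule (ZMod p) (W3 → ZMod p)}
    (h : V3 ≤ D3 V2) : V3 ≤ C3 (ZMod p) := fun _ hF => (h hF).1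

theorem le4 {V3 : Submodule (ZMod p) (W3 → ZMod p)} {V4 : Submodule (ZMod p) (W4 → ZMod p)}
    (h : V4 ≤ D4 V3) : V4 ≤ C4 (ZMod p) := fun _ hF => (h hF).1

theorem mk_spec (h1 : S_Cfg1) (h3 : S_Cfg3) (hp : 5 < p) (M : Model ℤ_[p] L x) (m l s : ℕ)
    (hm : 1 ≤ m) (hl : 1 ≤ l) (V : Tr p) (hV : IsCfg s V.1 V.2.1 V.2.2) :
    (mk M m l V : Set L) = idSet M m l V.1 V.2.1 V.2.2 ∧
    mk M m l V ∈ FixedIdeals (R := ℤ_[p]) x (p ^ (m + 5 * l + 5 * s)) := by
  obtain ⟨I, hI, hcard⟩ := h1 p L x M m l V.1 V.2.1 V.2.2 hp hm hl hV.pair.le2 hV.pair.le3 hV.le4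
  have hmk := mk_coe M m l V ⟨I, hI⟩
  have hIe : mk M m l V = I := SetLike.coe_injective (hmk.trans hI.symm)
  obtain ⟨ha, hb, hc⟩ := h3 p L x M m l V.1 V.2.1 V.2.2 I hp hI hV.pair hV.le4 hV.t4 hV.r4
  refine ⟨hmk, ?_⟩
  rw [hIe]
  refine ⟨ha, hb, ?_, ?_⟩
  · rw [hcard]
    congr 1
    have := hV.dim
    omega
  · rw [hc]
    exact hV.ne

theorem inj (h2 : S_Cfg2) (hp : 5 < p) (M : Model ℤ_[p] L x) (m l s m' l' s' : ℕ)
    (V V' : Tr p) (hV : IsCfg s V.1 V.2.1 V.2.2) (hV' : IsCfg s' V'.1 V'.2.1 V'.2.2)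
    (h : idSet M m l V.1 V.2.1 V.2.2 = idSet M m' l' V'.1 V'.2.1 V'.2.2) :
    m = m' ∧ l = l' ∧ V = V' := by
  obtain ⟨a1, a2, a3, a4, a5⟩ := h2 p L x M m l V.1 V.2.1 V.2.2 hp hV.pair.le2
    (le3 hV.pair.le3) (le4 hV.le4)
  obtain ⟨b1, b2, b3, b4, b5⟩ := h2 p L x M m' l' V'.1 V'.2.1 V'.2.2 hp hV'.pair.le2
    (le3 hV'.pair.le3) (le4 hV'.le4)
  rw [← h] at b1 b2 b3 b4 b5
  refine ⟨?_, ?_, ?_⟩
  · have c1 := (a1 m').symm.trans (b1 m')
    have c2 := (a1 m).symm.trans (b1 m)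
    exact le_antisymm (c1.2 le_rfl) (c2.1 le_rfl)
  · have c1 := (a2 l').symm.trans (b2 l')
    have c2 := (a2 l).symm.trans (b2 l)
    exact le_antisymm (c1.2 le_rfl) (c2.1 le_rfl)
  · refine Prod.ext ?_ (Prod.ext ?_ ?_)
    · apply le_antisymm
      · intro F hF
        exact b3 F (hV.pair.le2 hF) fun y hy => hy.2.2.1 F hF
      · intro F hF
        refine a3 F (hV'.pair.le2 hF) fun y hy => ?_
        rw [h] at hy
        exact hy.2.2.1 F hF
    · apply le_antisymm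
      · intro F hF
        exact b4 F (le3 hV.pair.le3 hF) fun y hy => hy.2.2.2.1 F hF
      · intro F hF
        refine a4 F (le3 hV'.pair.le3 hF) fun y hy => ?_
        rw [h] at hy
        exact hy.2.2.2.1 F hF
    · apply le_antisymm
      · intro F hF
        exact b5 F (le4 hV.le4 hF) fun y hy => hy.2.2.2.2 F hF
      · intro F hF
        refine a5 F (le4 hV'.le4 hF) fun y hy => ?_
        rw [h] at hy
        exact hy.2.2.2.2 F hF

/-- configurations -/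
abbrev Cf (p : ℕ) [Fact p.Prime] (s : ℕ) := {V : Tr p // IsCfg s V.1 V.2.1 V.2.2}

/-- the map from configurations to ideals -/
noncomputable def f (M : Model ℤ_[p] L x) : (Cf p 3 ⊕ Cf p 3) ⊕ Cf p 4 → LieIdeal ℤ_[p] L :=
  Sum.elim (Sum.elim (fun V => mk M 6 1 V.1) (fun V => mk M 1 2 V.1)) (fun V => mk M 1 1 V.1)

theorem f_inj (h1 : S_Cfg1) (h2 : S_Cfg2) (h3 : S_Cfg3) (hp : 5 < p) (M : Model ℤ_[p] L x) :
    Function.Injective (f M) := by
  have key : ∀ (m l s m' l' s' : ℕ), 1 ≤ m → 1 ≤ l → 1 ≤ m' → 1 ≤ l' →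
      ∀ (V : Cf p s) (V' : Cf p s'), mk M m l V.1 = mk M m' l' V'.1 →
      m = m' ∧ l = l' ∧ V.1 = V'.1 := by
    intro m l s m' l' s' hm hl hm' hl' V V' h
    have e1 := (mk_spec h1 h3 hp M m l s hm hl V.1 V.2).1
    have e2 := (mk_spec h1 h3 hp M m' l' s' hm' hl' V'.1 V'.2).1
    rw [h] at e1
    exact inj h2 hp M m l s m' l' s' V.1 V'.1 V.2 V'.2 (e1.symm.trans e2)
  rintro ((V | V) | V) ((V' | V') | V') h
  · have := key 6 1 3 6 1 3 (by norm_num) (by norm_num) (by norm_num) (by norm_num) V V' h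
    rw [Subtype.ext this.2.2]
  · have := key 6 1 3 1 2 3 (by norm_num) (by norm_num) (by norm_num) (by norm_num) V V' h
    omega
  · have := key 6 1 3 1 1 4 (by norm_num) (by norm_num) (by norm_num) (by norm_num) V V' h
    omega
  · have := key 1 2 3 6 1 3 (by norm_num) (by norm_num) (by norm_num) (by norm_num) V V' h
    omega
  · have := key 1 2 3 1 2 3 (by norm_num) (by norm_num) (by norm_num) (by norm_num) V V' h
    rw [Subtype.ext this.2.2]
  · have := key 1 2 3 1 1 4 (by norm_num) (by norm_num) (by norm_num) (by norm_num) V V' h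
    omega
  · have := key 1 1 4 6 1 3 (by norm_num) (by norm_num) (by norm_num) (by norm_num) V V' h
    omega
  · have := key 1 1 4 1 2 3 (by norm_num) (by norm_num) (by norm_num) (by norm_num) V V' h
    omega
  · have := key 1 1 4 1 1 4 (by norm_num) (by norm_num) (by norm_num) (by norm_num) V V' h
    rw [Subtype.ext this.2.2]

end

theorem main : S_Cfg1 → S_Cfg2 → S_Cfg3 → S_Cfg4 → S_Cfg5 → S_Cfg6 → S_Cfg7 := by
  intro h1 h2 h3 h4 h5 h6 p _ L _ _ x M hp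
  have hrange : Set.range (f M) = FixedIdeals (R := ℤ_[p]) x (p ^ 26) := by
    apply Set.Subset.antisymm
    · rintro I ⟨((V | V) | V), rfl⟩
      · exact (mk_spec h1 h3 hp M 6 1 3 (by norm_num) (by norm_num) V.1 V.2).2
      · exact (mk_spec h1 h3 hp M 1 2 3 (by norm_num) (by norm_num) V.1 V.2).2
      · exact (mk_spec h1 h3 hp M 1 1 4 (by norm_num) (by norm_num) V.1 V.2).2
    · intro I hI
      obtain ⟨m, l, hm, hl, hb, hor⟩ := h6 p L x M I hI hp
      have hm1 : 1 ≤ m := by omega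
      have hl1 : 1 ≤ l := by omega
      have hset := h5 p L x M I m l hp hI.1 hI.2.1 hb hm hl
      obtain ⟨hpair, hle4, ht4, hr4⟩ := h4 p L x M I hp hI.1 hI.2.1
      obtain ⟨I', hI', hcard⟩ := h1 p L x M m l (VI2 M I) (VI3 M I) (VI4 M I) hp hm1 hl1
        hpair.le2 hpair.le3 hle4
      have hII : I = I' := SetLike.coe_injective (hset.trans hI'.symm)
      rw [← hII, hI.2.2.1] at hcard
      have hexp := Nat.pow_right_injective (Fact.out : p.Prime).two_le hcard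
      have hne : VI4 M I ≠ ⊥ := by
        have := (h3 p L x M m l (VI2 M I) (VI3 M I) (VI4 M I) I hp hset hpair hle4 ht4 hr4).2.2
        intro hbot
        exact hI.2.2.2 (this.2 hbot)
      have hcfg : ∀ s, Module.finrank (ZMod p) (VI2 M I) + Module.finrank (ZMod p) (VI3 M I) +
          Module.finrank (ZMod p) (VI4 M I) = 5 * s →
          IsCfg s (VI2 M I) (VI3 M I) (VI4 M I) := fun s hs => ⟨hpair, hle4, ht4, hr4, hne, hs⟩
      have hmk : ∀ m l, (I : Set L) = idSet M m l (VI2 M I) (VI3 M I) (VI4 M I) →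
          mk M m l (VI2 M I, VI3 M I, VI4 M I) = I := by
        intro m l hs
        exact SetLike.coe_injective ((mk_coe M m l (VI2 M I, VI3 M I, VI4 M I) ⟨I, hs⟩).trans
          hs.symm)
      rcases hor with ⟨rfl, rfl⟩ | ⟨rfl, rfl⟩ | ⟨rfl, rfl⟩
      · exact ⟨Sum.inl (Sum.inl ⟨(VI2 M I, VI3 M I, VI4 M I), hcfg 3 (by omega)⟩), hmk _ _ hset⟩
      · exact ⟨Sum.inl (Sum.inr ⟨(VI2 M I, VI3 M I, VI4 M I), hcfg 3 (by omega)⟩), hmk _ _ hset⟩
      · exact ⟨Sum.inr ⟨(VI2 M I, VI3 M I, VI4 M I), hcfg 4 (by omega)⟩, hmk _ _ hset⟩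
  have hfin2 : Finite (Submodule (ZMod p) (W2 → ZMod p)) :=
    Finite.of_injective (fun S => (S : Set (W2 → ZMod p))) SetLike.coe_injective
  have hfin3 : Finite (Submodule (ZMod p) (W3 → ZMod p)) :=
    Finite.of_injective (fun S => (S : Set (W3 → ZMod p))) SetLike.coe_injective
  have hfin4 : Finite (Submodule (ZMod p) (W4 → ZMod p)) :=
    Finite.of_injective (fun S => (S : Set (W4 → ZMod p))) SetLike.coe_injective
  rw [← hrange, ← Nat.card_coe_set_eq, Nat.card_range_of_injective (f_inj h1 h2 h3 hp M),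
    Nat.card_sum, Nat.card_sum]
  unfold cfgCount
  ring

end Pool.Agent.W52.UnifCfg7
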