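import Pool.Agent.W373.Unif.Statements

set_option autoImplicit false

namespace Pool.Agent.W52.UnifFin

open Pool.Agent.W373.Unif

/-- the words -/
def v {L : Type} [LieRing L] (x : X → L) : X ⊕ W2 ⊕ W3 ⊕ W4 → L :=
  Sum.elim x (Sum.elim (b2 x) (Sum.elim (b3 x) (b4 x)))

theorem range_v {L : Type} [LieRing L] (x : X → L) :
    Set.range (v x) = Set.range x ∪ Set.range (b2 x) ∪ Set.range (b3 x) ∪ Set.range (b4 x) := by
  unfold v
  rw [Set.Sum.elim_range, Set.Sum.elim_range, Set.Sum.elim_range]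
  rw [Set.union_assoc, Set.union_assoc]

theorem main : S_Fin := by
  intro p _ L _ _ x ⟨M⟩ n
  classical
  let ι := X ⊕ W2 ⊕ W3 ⊕ W4
  let Φ : LieIdeal ℤ_[p] L → Set (ι → Fin (p ^ n)) := fun I =>
    {a | ∑ i, ((a i : ℕ) : ℤ_[p]) • v x i ∈ I}
  have key : ∀ y : L, ∃ a : ι → Fin (p ^ n), ∃ z : L,
      y = ∑ i, ((a i : ℕ) : ℤ_[p]) • v x i + ((p : ℤ_[p]) ^ n) • z := by
    intro y
    have h1 := M.span y
    rw [← range_v, Submodule.mem_span_range_iff_exists_fun] at h1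
    obtain ⟨c, hc⟩ := h1
    have h2 : ∀ i, ∃ d : ℤ_[p], c i - ((PadicInt.appr (c i) n : ℕ) : ℤ_[p]) = (p : ℤ_[p]) ^ n * d := by
      intro i
      have := PadicInt.appr_spec n (c i)
      rw [Ideal.mem_span_singleton] at this
      exact this
    choose d hd using h2
    refine ⟨fun i => ⟨PadicInt.appr (c i) n, PadicInt.appr_lt (c i) n⟩, ∑ i, d i • v x i, ?_⟩
    rw [← hc, Finset.smul_sum, ← Finset.sum_add_distrib]
    refine Finset.sum_congr rfl fun i _ => ?_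
    rw [smul_smul, ← hd i, ← add_smul]
    congr 1
    simp
  have hfin : (Set.univ : Set (Set (ι → Fin (p ^ n)))).Finite := Set.finite_univ
  refine Set.Finite.of_injOn (f := Φ) (fun _ _ => Set.mem_univ _) ?_ hfin
  intro I hI J hJ hIJ
  have hp : ∀ K : LieIdeal ℤ_[p] L, Nat.card (L ⧸ (K : Submodule ℤ_[p] L)) = p ^ n →
      ∀ z : L, ((p : ℤ_[p]) ^ n) • z ∈ K := by
    intro K hK z
    have h1 : (p ^ n) • (Submodule.Quotient.mk z : L ⧸ (K : Submodule ℤ_[p] L)) = 0 := by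
      rw [← hK]
      exact card_nsmul_eq_zero'
    rw [← Submodule.Quotient.mk_smul, Submodule.Quotient.mk_eq_zero] at h1
    have h2 : ((p : ℤ_[p]) ^ n) • z = (p ^ n) • z := by
      rw [← Nat.cast_pow, Nat.cast_smul_eq_nsmul]
    rw [h2]
    exact h1
  have hmem : ∀ K : LieIdeal ℤ_[p] L, Nat.card (L ⧸ (K : Submodule ℤ_[p] L)) = p ^ n →
      ∀ (a : ι → Fin (p ^ n)) (z : L),
      (∑ i, ((a i : ℕ) : ℤ_[p]) • v x i + ((p : ℤ_[p]) ^ n) • z ∈ K ↔ a ∈ Φ K) := by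
    intro K hK a z
    exact ⟨fun h => by
      have := K.sub_mem h (hp K hK z)
      rwa [add_sub_cancel_right] at this, fun h => K.add_mem h (hp K hK z)⟩
  apply LieSubmodule.ext
  intro y
  obtain ⟨a, z, rfl⟩ := key y
  rw [hmem I hI, hmem J hJ, hIJ]

end Pool.Agent.W52.UnifFin
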