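import Pool.Agent.W839.Ch.Stubs

/-!
# MP_332c83_pr, part CH-10: the deterministic final step
-/

set_option autoImplicit false
open scoped Classical
open Finset Filter Topology

namespace Pool.Agent.W52.ChDET

open Pool.Agent.W839.Ch

/-- the key quadratic inequality -/
lemma quad (M K θ a b X Y s : ℝ) (hK : 1 ≤ K) (hM : M = 2 * (1 + K ^ 2))
    (hθ : θ ≤ 1 / (2 * K)) (hab : 0 < a * b) (h1 : a ^ 2 ≤ K ^ 2 * b ^ 2)
    (h2 : b ^ 2 ≤ K ^ 2 * a ^ 2) :
    0 ≤ M * ((X - s * a) ^ 2 + (Y - s * b) ^ 2) + 2 * X * Y - θ * (X ^ 2 + Y ^ 2) := by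
  have hK0 : 0 < K := by linarith
  have hb : b ≠ 0 := by rintro rfl; simp at hab
  have ha : a ≠ 0 := by rintro rfl; simp at hab
  have hb2 : 0 < b ^ 2 := by positivity
  have ha2 : 0 < a ^ 2 := by positivity
  have habs : |a| * |b| = a * b := by rw [← abs_mul]; exact abs_of_pos hab
  have h1' : |a| ≤ K * |b| := by
    apply abs_le_of_sq_le_sq' _ (by positivity) |>.2
    rw [sq_abs, mul_pow, sq_abs]; exact h1
  have h2' : |b| ≤ K * |a| := by
    apply abs_le_of_sq_le_sq' _ (by positivity) |>.2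
    rw [sq_abs, mul_pow, sq_abs]; exact h2
  have hA : a ^ 2 ≤ K * (a * b) := by
    rw [← habs, ← sq_abs a]; nlinarith [abs_nonneg a]
  have hB : b ^ 2 ≤ K * (a * b) := by
    rw [← habs, ← sq_abs b]; nlinarith [abs_nonneg b]
  set S := a ^ 2 + b ^ 2 with hS
  have hSpos : 0 < S := by positivity
  have hSab : S ≤ 2 * K * (a * b) := by rw [hS]; linarith
  have hMpos : 0 < M := by rw [hM]; positivity
  -- first step
  have hstep : (X * b - Y * a) ^ 2 ≤ S * ((X - s * a) ^ 2 + (Y - s * b) ^ 2) := by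
    rw [hS]; nlinarith [sq_nonneg ((X - s * a) * a + (Y - s * b) * b)]
  have hθK : θ * K ≤ 1 / 2 := by
    have := mul_le_mul_of_nonneg_right hθ hK0.le
    have e : 1 / (2 * K) * K = 1 / 2 := by field_simp
    linarith
  -- the coefficients
  have hα : 0 < M * b ^ 2 - θ * S := by
    have hs : S ≤ (1 + K ^ 2) * b ^ 2 := by rw [hS]; nlinarith
    have hθ2 : θ ≤ 1 / 2 := by
      refine hθ.trans ?_
      rw [div_le_div_iff₀ (by positivity) (by norm_num)]
      linarith
    have : θ * S ≤ 1 / 2 * S := by nlinarith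
    have h3 : 0 < (1 + K ^ 2) * b ^ 2 := by positivity
    rw [hM]; nlinarith
  have hdet : 0 ≤ (M * b ^ 2 - θ * S) * (M * a ^ 2 - θ * S) - (S - M * (a * b)) ^ 2 := by
    have e : (M * b ^ 2 - θ * S) * (M * a ^ 2 - θ * S) - (S - M * (a * b)) ^ 2
        = S * (2 * M * (a * b) - S - θ * M * S + θ ^ 2 * S) := by
      rw [hS]; ring
    rw [e]
    apply mul_nonneg hSpos.le
    have h5 : 0 ≤ θ ^ 2 * S := by positivity
    have h6 : S + θ * M * S ≤ 2 * M * (a * b) := by
      -- multiply by K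
      have h7 : K * (S + θ * M * S) ≤ K * (2 * M * (a * b)) := by
        have h8 : K * (θ * M * S) ≤ 1 / 2 * M * S := by
          have := mul_le_mul_of_nonneg_right hθK (mul_pos hMpos hSpos).le
          nlinarith
        have h9 : K * S ≤ 1 / 2 * M * S := by
          have : K ≤ 1 / 2 * M := by rw [hM]; nlinarith [sq_nonneg (K - 1)]
          nlinarith
        have h10 : M * S ≤ K * (2 * M * (a * b)) := by
          have := mul_le_mul_of_nonneg_left hSab hMpos.le
          linarith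
        linarith
      exact le_of_mul_le_mul_left h7 hK0
    linarith
  have hq : 0 ≤ M * (X * b - Y * a) ^ 2 + S * (2 * X * Y - θ * (X ^ 2 + Y ^ 2)) := by
    have e : (M * b ^ 2 - θ * S) * (M * (X * b - Y * a) ^ 2
        + S * (2 * X * Y - θ * (X ^ 2 + Y ^ 2)))
        = ((M * b ^ 2 - θ * S) * X + (S - M * (a * b)) * Y) ^ 2
          + ((M * b ^ 2 - θ * S) * (M * a ^ 2 - θ * S) - (S - M * (a * b)) ^ 2) * Y ^ 2 := by
      ring
    have : 0 ≤ (M * b ^ 2 - θ * S) * (M * (X * b - Y * a) ^ 2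
        + S * (2 * X * Y - θ * (X ^ 2 + Y ^ 2))) := by
      rw [e]; positivity
    exact nonneg_of_mul_nonneg_right this hα
  have hfin : 0 ≤ S * (M * ((X - s * a) ^ 2 + (Y - s * b) ^ 2) + 2 * X * Y
      - θ * (X ^ 2 + Y ^ 2)) := by
    have h1 := mul_le_mul_of_nonneg_left hstep hMpos.le
    have e : S * (M * ((X - s * a) ^ 2 + (Y - s * b) ^ 2) + 2 * X * Y - θ * (X ^ 2 + Y ^ 2))
      = M * (S * ((X - s * a) ^ 2 + (Y - s * b) ^ 2))
        + S * (2 * X * Y - θ * (X ^ 2 + Y ^ 2)) := by ring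
    rw [e]; linarith
  exact nonneg_of_mul_nonneg_right hfin hSpos

section
variable {n m : ℕ} {A : Fin n → Fin n → ℝ} {d : Fin n → ℝ} {W : Submodule ℝ (Fin n → ℝ)}

lemma quadForm (E : ESys A d W m) (x : Fin n → ℝ) (hx : x ∈ W) :
    ∑ u, ∑ v, A u v * x u * x v = ∑ i, E.θ i * (∑ u, d u * x u * E.f i u) ^ 2 := by
  have h1 : ∀ u v, A u v * x u * x v
      = ∑ i, (∑ w, d w * x w * E.f i w) * (A u v * x u * E.f i v) := by
    intro u v
    conv_lhs => rw [E.expand x hx v]
    rw [Finset.mul_sum]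
    refine Finset.sum_congr rfl fun i _ => by ring
  calc ∑ u, ∑ v, A u v * x u * x v
      = ∑ u, ∑ v, ∑ i, (∑ w, d w * x w * E.f i w) * (A u v * x u * E.f i v) := by
        refine Finset.sum_congr rfl fun u _ => Finset.sum_congr rfl fun v _ => h1 u v
    _ = ∑ i, ∑ u, ∑ v, (∑ w, d w * x w * E.f i w) * (A u v * x u * E.f i v) := by
        rw [Finset.sum_comm (s := univ (α := Fin m))]
        refine Finset.sum_congr rfl fun u _ => ?_
        rw [Finset.sum_comm]
    _ = ∑ i, E.θ i * (∑ u, d u * x u * E.f i u) ^ 2 := by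
        refine Finset.sum_congr rfl fun i _ => ?_
        have := E.eig i x hx
        simp_rw [← Finset.mul_sum]
        rw [this]; ring

lemma normForm (E : ESys A d W m) (x : Fin n → ℝ) (hx : x ∈ W) :
    ∑ v, d v * x v ^ 2 = ∑ i, (∑ u, d u * x u * E.f i u) ^ 2 := by
  have h1 : ∀ v, d v * x v ^ 2
      = ∑ i, (∑ w, d w * x w * E.f i w) * (d v * x v * E.f i v) := by
    intro v
    calc d v * x v ^ 2 = (d v * x v) * x v := by ring
      _ = (d v * x v) * ∑ i, (∑ w, d w * x w * E.f i w) * E.f i v := by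
        rw [← E.expand x hx v]
      _ = _ := by
        rw [Finset.mul_sum]
        refine Finset.sum_congr rfl fun i _ => by ring
  simp_rw [h1]
  rw [Finset.sum_comm]
  refine Finset.sum_congr rfl fun i _ => ?_
  rw [← Finset.mul_sum]; ring

lemma dev {k : ℕ} (E : ESys A d W (k + 1)) (hlt : ∀ j, j ≠ 0 → E.θ j < E.θ 0)
    (x : Fin n → ℝ) (hx : x ∈ W) (u : Fin n) :
    (x u - (∑ w, d w * x w * E.f 0 w) * E.f 0 u) ^ 2
      ≤ (E.θ 0 * ∑ v, d v * x v ^ 2 - ∑ u, ∑ v, A u v * x u * x v)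
        * (∑ j ∈ univ.erase 0, E.f j u ^ 2 / (E.θ 0 - E.θ j)) := by
  set c : Fin (k + 1) → ℝ := fun i => ∑ w, d w * x w * E.f i w with hc
  have h1 : x u - c 0 * E.f 0 u = ∑ j ∈ univ.erase 0, c j * E.f j u := by
    have := E.expand x hx u
    rw [← Finset.add_sum_erase univ _ (Finset.mem_univ (0 : Fin (k + 1)))] at this
    simp only [hc]
    linarith
  have h2 : E.θ 0 * ∑ v, d v * x v ^ 2 - ∑ u, ∑ v, A u v * x u * x v
      = ∑ j ∈ univ.erase 0, c j ^ 2 * (E.θ 0 - E.θ j) := by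
    rw [quadForm E x hx, normForm E x hx, Finset.mul_sum, ← Finset.sum_sub_distrib,
      ← Finset.add_sum_erase univ _ (Finset.mem_univ (0 : Fin (k + 1)))]
    simp only [hc]
    rw [sub_self, zero_add]
    refine Finset.sum_congr rfl fun i _ => by ring
  rw [show (∑ w, d w * x w * E.f 0 w) = c 0 from rfl, h1, h2]
  apply Finset.sum_sq_le_sum_mul_sum_of_sq_le_mul
  · intro j hj
    have := hlt j (Finset.ne_of_mem_erase hj)
    have : 0 < E.θ 0 - E.θ j := by linarith
    positivity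
  · intro j hj
    have := hlt j (Finset.ne_of_mem_erase hj)
    have : 0 < E.θ 0 - E.θ j := by linarith
    positivity
  · intro j hj
    have := hlt j (Finset.ne_of_mem_erase hj)
    have : 0 < E.θ 0 - E.θ j := by linarith
    apply le_of_eq
    field_simp

lemma Qnonneg {k : ℕ} (E : ESys A d W (k + 1)) (hlt : ∀ j, j ≠ 0 → E.θ j < E.θ 0)
    (x : Fin n → ℝ) (hx : x ∈ W) :
    0 ≤ E.θ 0 * ∑ v, d v * x v ^ 2 - ∑ u, ∑ v, A u v * x u * x v := by
  rw [quadForm E x hx, normForm E x hx, Finset.mul_sum, ← Finset.sum_sub_distrib]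
  apply Finset.sum_nonneg
  intro j _
  rw [← sub_mul]
  by_cases hj : j = 0
  · subst hj; simp
  · have := hlt j hj
    have : 0 < E.θ 0 - E.θ j := by linarith
    positivity

lemma sumR {k : ℕ} (E : ESys A d W (k + 1)) :
    ∑ u, d u * (∑ j ∈ univ.erase 0, E.f j u ^ 2 / (E.θ 0 - E.θ j))
      = ∑ j ∈ univ.erase 0, 1 / (E.θ 0 - E.θ j) := by
  simp_rw [Finset.mul_sum]
  rw [Finset.sum_comm]
  refine Finset.sum_congr rfl fun j _ => ?_
  have := E.orth j j
  rw [if_pos rfl] at this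
  rw [← this, Finset.sum_div]
  refine Finset.sum_congr rfl fun u _ => by ring

end

section
variable {n : ℕ}

lemma adj_del (G : SimpleGraph (Fin n)) {u v : Fin n} (h : G.Adj u v) (a b : Fin n) :
    adj (G.deleteEdges {s(u, v)}) a b
      = adj G a b - (if a = u ∧ b = v then 1 else 0) - (if a = v ∧ b = u then 1 else 0) := by
  have huv : u ≠ v := h.ne
  unfold adj
  simp only [SimpleGraph.deleteEdges_adj, Set.mem_singleton_iff, Sym2.eq_iff]
  by_cases h1 : a = u ∧ b = v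
  · obtain ⟨rfl, rfl⟩ := h1
    simp [h, huv, huv.symm]
  · by_cases h2 : a = v ∧ b = u
    · obtain ⟨rfl, rfl⟩ := h2
      simp [h.symm, huv, huv.symm]
    · simp [h1, h2]

lemma quad_del (G : SimpleGraph (Fin n)) {u v : Fin n} (h : G.Adj u v) (x : Fin n → ℝ) :
    ∑ a, ∑ b, adj (G.deleteEdges {s(u, v)}) a b * x a * x b
      = (∑ a, ∑ b, adj G a b * x a * x b) - 2 * x u * x v := by
  have h1 : ∀ a b, adj (G.deleteEdges {s(u, v)}) a b * x a * x b
      = adj G a b * x a * x b - (if a = u ∧ b = v then x a * x b else 0)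
        - (if a = v ∧ b = u then x a * x b else 0) := by
    intro a b
    rw [adj_del G h]
    split_ifs <;> ring
  simp_rw [h1, Finset.sum_sub_distrib, ite_and]
  simp
  ring

lemma deg_del (G : SimpleGraph (Fin n)) {u v : Fin n} (h : G.Adj u v) (a : Fin n) :
    deg (G.deleteEdges {s(u, v)}) a
      = deg G a - (if a = u then 1 else 0) - (if a = v then 1 else 0) := by
  unfold deg
  simp_rw [adj_del G h, Finset.sum_sub_distrib, ite_and]
  simp

lemma norm_del (G : SimpleGraph (Fin n)) {u v : Fin n} (h : G.Adj u v) (x : Fin n → ℝ) :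
    ∑ a, deg (G.deleteEdges {s(u, v)}) a * x a ^ 2
      = (∑ a, deg G a * x a ^ 2) - x u ^ 2 - x v ^ 2 := by
  simp_rw [deg_del G h, sub_mul, Finset.sum_sub_distrib]
  simp

end

lemma good_edge (h1 : S_GAP1) (h2 : S_GAP2) (k : ℕ) (G : SimpleGraph (Fin (k + 2)))
    (hdeg : ∀ v, 1 < deg G v) (E : ESys (adj G) (deg G) (perp (deg G)) (k + 1))
    (hlt : ∀ j, j ≠ 0 → E.θ j < E.θ 0) (K : ℝ) (hK : 1 ≤ K) (hθ : E.θ 0 ≤ 1 / (2 * K))
    (u v : Fin (k + 2)) (h : G.Adj u v) (hab : 0 < E.f 0 u * E.f 0 v)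
    (ha : E.f 0 u ^ 2 ≤ K ^ 2 * E.f 0 v ^ 2) (hb : E.f 0 v ^ 2 ≤ K ^ 2 * E.f 0 u ^ 2)
    (hRu : (∑ j ∈ univ.erase 0, E.f j u ^ 2 / (E.θ 0 - E.θ j)) ≤ 1 / (4 * (1 + K ^ 2)))
    (hRv : (∑ j ∈ univ.erase 0, E.f j v ^ 2 / (E.θ 0 - E.θ j)) ≤ 1 / (4 * (1 + K ^ 2))) :
    gapF (k + 2) G ≤ gapF (k + 2) (G.deleteEdges {s(u, v)}) := by
  have huv : u ≠ v := h.ne
  rw [h1 k G (fun w => by linarith [hdeg w]) E]
  have hdeg' : ∀ w, 0 < deg (G.deleteEdges {s(u, v)}) w := by
    intro w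
    rw [deg_del G h]
    have := hdeg w
    by_cases hw : w = u
    · subst hw
      rw [if_pos rfl, if_neg huv]; linarith
    · rw [if_neg hw]
      split_ifs <;> linarith
  refine h2 k (G.deleteEdges {s(u, v)}) hdeg' (E.θ 0)
    (∑ w, deg G w • (LinearMap.proj w : (Fin (k + 2) → ℝ) →ₗ[ℝ] ℝ)) ?_
  intro x hx
  have hx' : x ∈ perp (deg G) := by
    show ∑ w, deg G w * x w = 0
    simpa using hx
  rw [quad_del G h, norm_del G h]
  set s := ∑ w, deg G w * x w * E.f 0 w with hs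
  have hQ := Qnonneg E hlt x hx'
  set Q := E.θ 0 * ∑ v, deg G v * x v ^ 2 - ∑ u, ∑ v, adj G u v * x u * x v with hQdef
  have d1 := dev E hlt x hx' u
  have d2 := dev E hlt x hx' v
  rw [← hs, ← hQdef] at d1 d2
  have d1' : (x u - s * E.f 0 u) ^ 2 ≤ Q * (1 / (4 * (1 + K ^ 2))) :=
    d1.trans (mul_le_mul_of_nonneg_left hRu hQ)
  have d2' : (x v - s * E.f 0 v) ^ 2 ≤ Q * (1 / (4 * (1 + K ^ 2))) :=
    d2.trans (mul_le_mul_of_nonneg_left hRv hQ)
  have hq := quad (2 * (1 + K ^ 2)) K (E.θ 0) (E.f 0 u) (E.f 0 v) (x u) (x v) s hK rfl hθ hab ha hb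
  have hMQ : 2 * (1 + K ^ 2) * ((x u - s * E.f 0 u) ^ 2 + (x v - s * E.f 0 v) ^ 2) ≤ Q := by
    have hpos : 0 < 1 + K ^ 2 := by positivity
    have e : 2 * (1 + K ^ 2) * (Q * (1 / (4 * (1 + K ^ 2))) + Q * (1 / (4 * (1 + K ^ 2)))) = Q := by
      field_simp; ring
    calc _ ≤ 2 * (1 + K ^ 2) * (Q * (1 / (4 * (1 + K ^ 2))) + Q * (1 / (4 * (1 + K ^ 2)))) := by
          apply mul_le_mul_of_nonneg_left (add_le_add d1' d2') (by positivity)
      _ = Q := e
  have e2 : E.θ 0 * (∑ v, deg G v * x v ^ 2 - x u ^ 2 - x v ^ 2)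
      = E.θ 0 * ∑ v, deg G v * x v ^ 2 - E.θ 0 * (x u ^ 2 + x v ^ 2) := by ring
  rw [e2]
  linarith

/-- the number of good edges is at least half the number of adjacent ordered pairs in `U` -/
lemma count_edges {n : ℕ} (G : SimpleGraph (Fin n)) (U : Finset (Fin n))
    (P : Sym2 (Fin n) → Prop) [DecidablePred P] (hP : ∀ u ∈ U, ∀ v ∈ U, G.Adj u v → P s(u, v)) :
    ∑ u ∈ U, ∑ v ∈ U, adj G u v ≤ 2 * ((G.edgeFinset.filter P).card : ℝ) := by
  have h1 : ∑ u ∈ U, ∑ v ∈ U, adj G u v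
      = (((U ×ˢ U).filter (fun q => G.Adj q.1 q.2)).card : ℝ) := by
    rw [← Finset.sum_product', Finset.card_filter]
    push_cast
    rfl
  rw [h1]
  have h2 := Finset.card_le_mul_card_image (f := fun q : Fin n × Fin n => s(q.1, q.2))
    ((U ×ˢ U).filter (fun q => G.Adj q.1 q.2)) 2 (by
      intro e he
      obtain ⟨q, hq, rfl⟩ := Finset.mem_image.1 he
      have : (((U ×ˢ U).filter (fun q => G.Adj q.1 q.2)).filter
          (fun x : Fin n × Fin n => s(x.1, x.2) = s(q.1, q.2))) ⊆ {(q.1, q.2), (q.2, q.1)} := by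
        intro x hx
        have := (Finset.mem_filter.1 hx).2
        rw [Sym2.eq_iff] at this
        rcases x with ⟨x1, x2⟩
        simp only [Finset.mem_insert, Finset.mem_singleton, Prod.mk.injEq]
        exact this
      exact (Finset.card_le_card this).trans Finset.card_le_two)
  have h3 : ((U ×ˢ U).filter (fun q => G.Adj q.1 q.2)).image (fun q => s(q.1, q.2))
      ⊆ G.edgeFinset.filter P := by
    intro e he
    obtain ⟨q, hq, rfl⟩ := Finset.mem_image.1 he
    rw [Finset.mem_filter, Finset.mem_product] at hq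
    rw [Finset.mem_filter]
    refine ⟨?_, hP _ hq.1.1 _ hq.1.2 hq.2⟩
    rw [SimpleGraph.mem_edgeFinset]
    exact hq.2
  have h4 := Finset.card_le_card h3
  have h5 : (((U ×ˢ U).filter (fun q => G.Adj q.1 q.2)).card)
      ≤ 2 * (G.edgeFinset.filter P).card := h2.trans (Nat.mul_le_mul_left 2 h4)
  exact_mod_cast h5

lemma opn_pairs {n : ℕ} {p C : ℝ} (G : SimpleGraph (Fin n)) (h : OpN p C G)
    (U : Finset (Fin n)) :
    (∑ u ∈ U, ∑ v ∈ U, adj G u v - p * ((U.card : ℝ) ^ 2 - U.card)) ^ 2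
      ≤ C ^ 2 * n * U.card ^ 2 := by
  have := h (fun v => if v ∈ U then 1 else 0) (fun v => if v ∈ U then 1 else 0)
  have e1 : sn (fun v : Fin n => if v ∈ U then (1 : ℝ) else 0) = U.card := by
    unfold sn
    simp
  have e2 : ∑ u, ∑ v, (adj G u v - if u = v then 0 else p) * (if u ∈ U then 1 else 0)
      * (if v ∈ U then 1 else 0)
      = ∑ u ∈ U, ∑ v ∈ U, adj G u v - p * ((U.card : ℝ) ^ 2 - U.card) := by
    have h1 : ∀ u v : Fin n, (adj G u v - if u = v then 0 else p) * (if u ∈ U then 1 else 0)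
      * (if v ∈ U then 1 else 0)
      = if u ∈ U then (if v ∈ U then (adj G u v - p + if u = v then p else 0) else 0) else 0 := by
      intro u v
      split_ifs <;> ring
    simp_rw [h1]
    have h2 : ∀ u : Fin n, (∑ v, if u ∈ U then
        (if v ∈ U then (adj G u v - p + if u = v then p else 0) else 0) else 0)
        = if u ∈ U then ∑ v ∈ U, (adj G u v - p + if u = v then p else 0) else 0 := by
      intro u
      split_ifs with hu
      · rw [← Finset.sum_filter]; simp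
      · simp
    simp_rw [h2]
    rw [← Finset.sum_filter]
    simp only [Finset.filter_mem_eq_inter, Finset.univ_inter]
    have h3 : ∀ u ∈ U, ∑ v ∈ U, (adj G u v - p + if u = v then p else 0)
        = ∑ v ∈ U, adj G u v - p * U.card + p := by
      intro u hu
      rw [Finset.sum_add_distrib, Finset.sum_sub_distrib, Finset.sum_ite_eq, if_pos hu]
      simp [mul_comm]
    rw [Finset.sum_congr rfl h3, Finset.sum_add_distrib, Finset.sum_sub_distrib]
    simp
    ring
  rw [e1, e2] at this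
  calc _ ≤ _ := this
    _ = _ := by ring

theorem main (h1 : S_GAP1) (h2 : S_GAP2) : S_DET := by
  intro p hp0 hp1 C c5 hC hc5
  set K : ℝ := 1 + 8 / c5 ^ 3 with hK
  have hK1 : 1 ≤ K := by
    have : 0 < 8 / c5 ^ 3 := by positivity
    linarith
  set ρ : ℝ := 1 / (4 * (1 + K ^ 2)) with hρ
  have hρ0 : 0 < ρ := by positivity
  refine ⟨3 * p * ρ * c5 / 32, p * c5 ^ 2 / 32, by positivity, by positivity,
    ⌈2 / p + 4 * K ^ 2 * C ^ 2 + 16 / c5 + (16 * C / (p * c5)) ^ 2⌉₊, ?_⟩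
  intro k hk G hop hdg E hθ hT hlt hR
  set n : ℝ := ((k + 2 : ℕ) : ℝ) with hn
  have hkn : 2 / p + 4 * K ^ 2 * C ^ 2 + 16 / c5 + (16 * C / (p * c5)) ^ 2 ≤ n := by
    have := Nat.ceil_le.1 hk
    have h3 : (k : ℝ) ≤ n := by rw [hn]; push_cast; linarith
    linarith
  have b1 : 2 / p ≤ n := by
    have : 0 ≤ 4 * K ^ 2 * C ^ 2 := by positivity
    have : 0 ≤ 16 / c5 := by positivity
    have : 0 ≤ (16 * C / (p * c5)) ^ 2 := by positivity
    linarith
  have b2 : 4 * K ^ 2 * C ^ 2 ≤ n := by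
    have : 0 ≤ 2 / p := by positivity
    have : 0 ≤ 16 / c5 := by positivity
    have : 0 ≤ (16 * C / (p * c5)) ^ 2 := by positivity
    linarith
  have b3 : 16 / c5 ≤ n := by
    have : 0 ≤ 4 * K ^ 2 * C ^ 2 := by positivity
    have : 0 ≤ 2 / p := by positivity
    have : 0 ≤ (16 * C / (p * c5)) ^ 2 := by positivity
    linarith
  have b4 : (16 * C / (p * c5)) ^ 2 ≤ n := by
    have : 0 ≤ 4 * K ^ 2 * C ^ 2 := by positivity
    have : 0 ≤ 2 / p := by positivity
    have : 0 ≤ 16 / c5 := by positivity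
    linarith
  have hn0 : 0 < n := by rw [hn]; positivity
  -- degrees
  have hpn : 2 ≤ p * n := by
    rw [div_le_iff₀ hp0] at b1; linarith
  have hdeglow : ∀ v, 3 / 4 * (p * n) ≤ deg G v := by
    intro v
    have := abs_le.1 (hdg v)
    have := this.1
    rw [← hn] at this
    linarith
  have hdeg : ∀ v, 1 < deg G v := by
    intro v
    have := hdeglow v
    linarith
  -- θ
  have hθK : E.θ 0 ≤ 1 / (2 * K) := by
    rw [le_div_iff₀ (by positivity)]
    have h3 : E.θ 0 ^ 2 * (4 * K ^ 2 * C ^ 2) ≤ C ^ 2 :=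
      (mul_le_mul_of_nonneg_left b2 (sq_nonneg _)).trans hθ
    have h4 : (E.θ 0 * (2 * K)) ^ 2 ≤ 1 ^ 2 := by
      have hC2 : 0 < C ^ 2 := by positivity
      have : C ^ 2 * (E.θ 0 * (2 * K)) ^ 2 ≤ C ^ 2 * 1 ^ 2 := by
        have e : C ^ 2 * (E.θ 0 * (2 * K)) ^ 2 = E.θ 0 ^ 2 * (4 * K ^ 2 * C ^ 2) := by ring
        rw [e, one_pow, mul_one]; exact h3
      exact le_of_mul_le_mul_left this hC2
    exact (abs_le_of_sq_le_sq' h4 (by norm_num)).2
  set f := E.f 0 with hf
  -- sn f > 0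
  have hsn : 0 < sn f := by
    have horth := E.orth 0 0
    rw [if_pos rfl] at horth
    by_contra hcon
    have hz : sn f = 0 := le_antisymm (not_lt.1 hcon) (Finset.sum_nonneg fun v _ => sq_nonneg _)
    have hz' : ∀ v, f v = 0 := by
      intro v
      have := (Finset.sum_eq_zero_iff_of_nonneg (fun v _ => sq_nonneg (f v))).1 hz v
        (Finset.mem_univ v)
      exact pow_eq_zero_iff (two_ne_zero) |>.1 this
    rw [← hf] at horth
    simp [hz'] at horth
  set T := Finset.univ.filter (fun v : Fin (k + 2) => c5 ^ 2 * sn f ≤ n * f v ^ 2) with hTdef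
  have hTne : ∀ v ∈ T, f v ≠ 0 := by
    intro v hv h0
    have := (Finset.mem_filter.1 hv).2
    rw [h0] at this
    have h3 : 0 < c5 ^ 2 * sn f := by positivity
    simp at this
    linarith
  -- sign
  obtain ⟨σ, hσ, hσT⟩ : ∃ σ : ℝ, σ ^ 2 = 1 ∧
      c5 * n / 2 ≤ ((T.filter (fun v => 0 < σ * f v)).card : ℝ) := by
    have hsub : T ⊆ (T.filter (fun v => 0 < (1 : ℝ) * f v)) ∪ (T.filter (fun v => 0 < (-1 : ℝ) * f v)) := by
      intro v hv
      rcases lt_or_gt_of_ne (hTne v hv) with h3 | h3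
      · exact Finset.mem_union_right _ (Finset.mem_filter.2 ⟨hv, by linarith⟩)
      · exact Finset.mem_union_left _ (Finset.mem_filter.2 ⟨hv, by linarith⟩)
    have hc := (Finset.card_le_card hsub).trans (Finset.card_union_le _ _)
    have hc' : (T.card : ℝ) ≤ ((T.filter (fun v => 0 < (1 : ℝ) * f v)).card : ℝ)
      + ((T.filter (fun v => 0 < (-1 : ℝ) * f v)).card : ℝ) := by exact_mod_cast hc
    by_contra hcon
    push Not at hcon
    have e1 := hcon 1 (by norm_num)
    have e2 := hcon (-1) (by norm_num)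
    have : c5 * n ≤ (T.card : ℝ) := hT
    linarith
  set T' := T.filter (fun v => 0 < σ * f v) with hT'
  set B1 := Finset.univ.filter (fun v : Fin (k + 2) => 8 / c5 * sn f < n * f v ^ 2) with hB1
  set R : Fin (k + 2) → ℝ := fun v => ∑ j ∈ univ.erase 0, E.f j v ^ 2 / (E.θ 0 - E.θ j) with hRdef
  have hRnn : ∀ v, 0 ≤ R v := by
    intro v
    apply Finset.sum_nonneg
    intro j hj
    have := hlt j (Finset.ne_of_mem_erase hj)
    have : 0 < E.θ 0 - E.θ j := by linarith
    positivity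
  set B2 := Finset.univ.filter (fun v : Fin (k + 2) => ρ < R v) with hB2
  have hB1card : (B1.card : ℝ) ≤ c5 * n / 8 := by
    have h3 : (B1.card : ℝ) * (8 / c5 * sn f) ≤ n * sn f := by
      calc (B1.card : ℝ) * (8 / c5 * sn f) = ∑ v ∈ B1, 8 / c5 * sn f := by simp
        _ ≤ ∑ v ∈ B1, n * f v ^ 2 :=
          Finset.sum_le_sum fun v hv => (Finset.mem_filter.1 hv).2.le
        _ ≤ ∑ v, n * f v ^ 2 :=
          Finset.sum_le_sum_of_subset_of_nonneg (Finset.subset_univ _)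
            (fun v _ _ => by positivity)
        _ = n * sn f := by unfold sn; rw [Finset.mul_sum]
    have h4 : (B1.card : ℝ) * (8 / c5) ≤ n := by
      have : (B1.card : ℝ) * (8 / c5) * sn f ≤ n * sn f := by linarith
      exact le_of_mul_le_mul_right this hsn
    have h5 : (B1.card : ℝ) * (8 / c5) * c5 ≤ n * c5 := mul_le_mul_of_nonneg_right h4 hc5.le
    have e : (B1.card : ℝ) * (8 / c5) * c5 = 8 * B1.card := by field_simp
    linarith
  have hB2card : (B2.card : ℝ) ≤ c5 * n / 8 := by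
    have h3 : (B2.card : ℝ) * (3 / 4 * (p * n) * ρ) ≤ 3 * p * ρ * c5 / 32 * n ^ 2 := by
      calc (B2.card : ℝ) * (3 / 4 * (p * n) * ρ) = ∑ v ∈ B2, 3 / 4 * (p * n) * ρ := by simp
        _ ≤ ∑ v ∈ B2, deg G v * R v :=
          Finset.sum_le_sum fun v hv => mul_le_mul (hdeglow v) (Finset.mem_filter.1 hv).2.le
            hρ0.le (by linarith [hdeg v])
        _ ≤ ∑ v, deg G v * R v :=
          Finset.sum_le_sum_of_subset_of_nonneg (Finset.subset_univ _)
            (fun v _ _ => mul_nonneg (by linarith [hdeg v]) (hRnn v))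
        _ = ∑ j ∈ univ.erase 0, 1 / (E.θ 0 - E.θ j) := sumR E
        _ ≤ _ := hR
    have hpos : 0 < 3 / 4 * (p * n) * ρ := by positivity
    have h4 : (B2.card : ℝ) * (3 / 4 * (p * n) * ρ) ≤ (c5 * n / 8) * (3 / 4 * (p * n) * ρ) := by
      have e : (c5 * n / 8) * (3 / 4 * (p * n) * ρ) = 3 * p * ρ * c5 / 32 * n ^ 2 := by ring
      rw [e]; exact h3
    exact le_of_mul_le_mul_right h4 hpos
  set U := T' \ (B1 ∪ B2) with hU
  have hUcard : c5 * n / 4 ≤ (U.card : ℝ) := by
    have h3 : T'.card ≤ U.card + (B1.card + B2.card) := by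
      have := Finset.le_card_sdiff (B1 ∪ B2) T'
      have := Finset.card_union_le B1 B2
      rw [hU]; omega
    have h3' : (T'.card : ℝ) ≤ U.card + (B1.card + B2.card) := by exact_mod_cast h3
    linarith
  have hgood : ∀ u ∈ U, ∀ v ∈ U, G.Adj u v →
      ¬ (gapF (k + 2) (G.deleteEdges {s(u, v)}) < gapF (k + 2) G) := by
    intro u hu v hv huv
    rw [not_lt]
    rw [hU, Finset.mem_sdiff, Finset.mem_union, not_or] at hu hv
    obtain ⟨hu1, hu2, hu3⟩ := hu
    obtain ⟨hv1, hv2, hv3⟩ := hv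
    rw [hT', Finset.mem_filter] at hu1 hv1
    have hu4 := (Finset.mem_filter.1 hu1.1).2
    have hv4 := (Finset.mem_filter.1 hv1.1).2
    have hu5 : n * f u ^ 2 ≤ 8 / c5 * sn f := by
      by_contra hcon
      exact hu2 (Finset.mem_filter.2 ⟨Finset.mem_univ _, not_le.1 hcon⟩)
    have hv5 : n * f v ^ 2 ≤ 8 / c5 * sn f := by
      by_contra hcon
      exact hv2 (Finset.mem_filter.2 ⟨Finset.mem_univ _, not_le.1 hcon⟩)
    have hu6 : R u ≤ ρ := by
      by_contra hcon
      exact hu3 (Finset.mem_filter.2 ⟨Finset.mem_univ _, not_le.1 hcon⟩)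
    have hv6 : R v ≤ ρ := by
      by_contra hcon
      exact hv3 (Finset.mem_filter.2 ⟨Finset.mem_univ _, not_le.1 hcon⟩)
    have hratio : ∀ a b : Fin (k + 2), n * f a ^ 2 ≤ 8 / c5 * sn f →
        c5 ^ 2 * sn f ≤ n * f b ^ 2 → f a ^ 2 ≤ K ^ 2 * f b ^ 2 := by
      intro a b ha hb
      have h3 : 8 / c5 * sn f = 8 / c5 ^ 3 * (c5 ^ 2 * sn f) := by field_simp
      have h4 : n * f a ^ 2 ≤ 8 / c5 ^ 3 * (n * f b ^ 2) := by
        rw [h3] at ha
        exact ha.trans (mul_le_mul_of_nonneg_left hb (by positivity))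
      have h5 : 8 / c5 ^ 3 ≤ K ^ 2 := by
        have : K ≤ K ^ 2 := by nlinarith
        have : 8 / c5 ^ 3 ≤ K := by rw [hK]; linarith
        linarith
      have h6 : n * f a ^ 2 ≤ n * (K ^ 2 * f b ^ 2) := by
        calc n * f a ^ 2 ≤ 8 / c5 ^ 3 * (n * f b ^ 2) := h4
          _ ≤ K ^ 2 * (n * f b ^ 2) := mul_le_mul_of_nonneg_right h5 (by positivity)
          _ = _ := by ring
      exact le_of_mul_le_mul_left h6 hn0
    have hprod : 0 < f u * f v := by
      have h3 : 0 < (σ * f u) * (σ * f v) := mul_pos hu1.2 hv1.2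
      have h4 : (σ * f u) * (σ * f v) = σ ^ 2 * (f u * f v) := by ring
      rw [h4, hσ, one_mul] at h3
      exact h3
    exact good_edge h1 h2 k G hdeg E hlt K hK1 hθK u v huv hprod (hratio u v hu5 hv4)
      (hratio v u hv5 hu4) hu6 hv6
  -- counting
  set bad := G.edgeFinset.filter (fun e =>
        gapF (k + 2) (G.deleteEdges {e}) < gapF (k + 2) G) with hbad
  set good := G.edgeFinset.filter (fun e =>
        ¬ (gapF (k + 2) (G.deleteEdges {e}) < gapF (k + 2) G)) with hgooddef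
  have hsum : bad.card + good.card = G.edgeFinset.card := by
    rw [hbad, hgooddef]
    exact Finset.card_filter_add_card_filter_not _
  have hsum' : (bad.card : ℝ) + good.card = G.edgeFinset.card := by exact_mod_cast hsum
  have hcnt : ∑ u ∈ U, ∑ v ∈ U, adj G u v ≤ 2 * (good.card : ℝ) :=
    count_edges G U (fun e =>
        ¬ (gapF (k + 2) (G.deleteEdges {e}) < gapF (k + 2) G)) hgood
  have hpairs := opn_pairs G hop U
  set e2 := ∑ u ∈ U, ∑ v ∈ U, adj G u v with he2
  have hUpos : 0 < (U.card : ℝ) := lt_of_lt_of_le (by positivity) hUcard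
  have hlow : -(p * c5 * n / 16 * U.card) ≤ e2 - p * ((U.card : ℝ) ^ 2 - U.card) := by
    refine (abs_le_of_sq_le_sq' (b := p * c5 * n / 16 * U.card) ?_ (by positivity)).1
    refine hpairs.trans ?_
    rw [← hn]
    have h3 : C ^ 2 * n ≤ (p * c5 * n / 16) ^ 2 := by
      have h4 : (16 * C / (p * c5)) ^ 2 * ((p * c5 / 16) ^ 2 * n) ≤ n * ((p * c5 / 16) ^ 2 * n) :=
        mul_le_mul_of_nonneg_right b4 (by positivity)
      have e1 : (16 * C / (p * c5)) ^ 2 * ((p * c5 / 16) ^ 2 * n) = C ^ 2 * n := by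
        field_simp
      have e3 : n * ((p * c5 / 16) ^ 2 * n) = (p * c5 * n / 16) ^ 2 := by ring
      linarith
    calc C ^ 2 * n * U.card ^ 2 ≤ (p * c5 * n / 16) ^ 2 * U.card ^ 2 :=
          mul_le_mul_of_nonneg_right h3 (by positivity)
      _ = _ := by ring
  have hp16 : p ≤ p * c5 * n / 16 := by
    rw [div_le_iff₀ hc5] at b3
    have := mul_le_mul_of_nonneg_left b3 hp0.le
    linarith
  have he2low : p * c5 ^ 2 * n ^ 2 / 32 ≤ e2 := by
    have h3 : (U.card : ℝ) * (p * U.card - p * c5 * n / 8) ≤ e2 := by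
      have hh := mul_le_mul_of_nonneg_right hp16 hUpos.le
      have e : (U.card : ℝ) * (p * U.card - p * c5 * n / 8)
        = p * ((U.card : ℝ) ^ 2 - U.card) + p * U.card - 2 * (p * c5 * n / 16 * U.card) := by
        ring
      rw [e]; linarith
    have h4 : p * c5 * n / 8 ≤ p * U.card - p * c5 * n / 8 := by
      have := mul_le_mul_of_nonneg_left hUcard hp0.le
      linarith
    have h5 : (c5 * n / 4) * (p * c5 * n / 8) ≤ (U.card : ℝ) * (p * U.card - p * c5 * n / 8) :=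
      mul_le_mul hUcard h4 (by positivity) hUpos.le
    calc p * c5 ^ 2 * n ^ 2 / 32 = (c5 * n / 4) * (p * c5 * n / 8) := by ring
      _ ≤ _ := h5
      _ ≤ e2 := h3
  have hgoodlow : p * c5 ^ 2 * n ^ 2 / 64 ≤ (good.card : ℝ) := by linarith
  have hgoodpos : 0 < (good.card : ℝ) := lt_of_lt_of_le (by positivity) hgoodlow
  have hEle : (G.edgeFinset.card : ℝ) ≤ n ^ 2 / 2 := by
    have h3 := SimpleGraph.card_edgeFinset_le_card_choose_two (G := G)
    rw [Fintype.card_fin] at h3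
    have h4 : (G.edgeFinset.card : ℝ) ≤ ((k + 2).choose 2 : ℕ) := by exact_mod_cast h3
    rw [Nat.cast_choose_two, ← hn] at h4
    have e : n * (n - 1) / 2 = n ^ 2 / 2 - n / 2 := by ring
    rw [e] at h4
    linarith
  have hEpos : 0 < (G.edgeFinset.card : ℝ) := by
    have : 0 ≤ (bad.card : ℝ) := by positivity
    linarith
  rw [le_sub_iff_add_le, ← le_sub_iff_add_le', div_le_iff₀ hEpos]
  have h3 : p * c5 ^ 2 / 32 * (G.edgeFinset.card : ℝ) ≤ p * c5 ^ 2 / 32 * (n ^ 2 / 2) :=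
    mul_le_mul_of_nonneg_left hEle (by positivity)
  have h5 : p * c5 ^ 2 / 32 * (n ^ 2 / 2) = p * c5 ^ 2 * n ^ 2 / 64 := by ring
  rw [sub_mul, one_mul]
  linarith

end Pool.Agent.W52.ChDET
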