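import Pool.Agent.W792.GK.Stm

noncomputable section

namespace Pool.Agent.W52.GKSy3

open Pool.Agent.W792.GK UnitAddTorus MeasureTheory

theorem ch_cont {T : Type} [TopologicalSpace T] (c : ℝ) (a : C(T, ℝ)) (n : ℕ) :
    Continuous fun k => ch c (a k) n := by
  induction n using Nat.twoStepInduction with
  | zero => simp only [ch]; exact continuous_const
  | one => simp only [ch]; exact a.continuous
  | more n ih1 ih2 =>
    simp only [ch]
    exact (a.continuous.mul ih2).sub (ih1.const_smul c)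

/-- `ch` of a continuous function -/
def chf {T : Type} [TopologicalSpace T] (c : ℝ) (a : C(T, ℝ)) (n : ℕ) : C(T, ℝ) :=
  ⟨fun k => ch c (a k) n, ch_cont c a n⟩

theorem ch_bound (s t : ℝ) (hs : 0 < s) (ht : |t| ≤ 2 * s) (n : ℕ) :
    |ch (s ^ 2) t n| ≤ (4 * s) ^ n := by
  induction n using Nat.twoStepInduction with
  | zero => simp [ch]
  | one => simp only [ch, pow_one]; linarith
  | more n ih1 ih2 =>
    simp only [ch, smul_eq_mul]
    calc |t * ch (s ^ 2) t (n + 1) - s ^ 2 * ch (s ^ 2) t n|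
        ≤ |t * ch (s ^ 2) t (n + 1)| + |s ^ 2 * ch (s ^ 2) t n| := abs_sub _ _
      _ = |t| * |ch (s ^ 2) t (n + 1)| + s ^ 2 * |ch (s ^ 2) t n| := by
          rw [abs_mul, abs_mul, abs_of_nonneg (sq_nonneg s)]
      _ ≤ (2 * s) * (4 * s) ^ (n + 1) + s ^ 2 * (4 * s) ^ n := by
          gcongr
      _ ≤ (4 * s) ^ (n + 2) := by
          have h1 : 0 < (4 * s) ^ n := by positivity
          have h2 : (4 * s) ^ (n + 2) = (4 * s) ^ n * (16 * s ^ 2) := by ring
          have h3 : (2 * s) * (4 * s) ^ (n + 1) + s ^ 2 * (4 * s) ^ n =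
              (4 * s) ^ n * (9 * s ^ 2) := by ring
          rw [h2, h3]
          apply mul_le_mul_of_nonneg_left _ h1.le
          nlinarith [sq_nonneg s]

theorem main : S_SY1 → S_SY2 → S_SY3 := by
  intro h1 h2 d hd s δ n₀ hs hδ
  set M : ℝ := (max 1 (4 * s)) ^ n₀ with hM
  obtain ⟨r, hr⟩ := exists_nat_gt (2 * M ^ 2 / δ ^ 2)
  have hr0 : 0 < r := by
    have h3 : (0 : ℝ) < r := lt_of_le_of_lt (by positivity) hr
    exact_mod_cast h3
  haveI : Nonempty (Fin d × Fin r) := ⟨(⟨0, hd⟩, ⟨0, hr0⟩)⟩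
  obtain ⟨a, hsym, hb, hzero⟩ := h1 (Fin d × Fin r) s hs
  refine ⟨r, a, hr0, hsym, hb, ?_⟩
  intro n hn hn0 γ
  by_cases hγ : γ = 0
  · subst hγ
    rw [hzero n hn, norm_zero]
    exact hδ.le
  · have hfs : IsSym (chf (s ^ 2) a n) := by
      refine ⟨fun σ k => ?_, fun i k => ?_⟩
      · show ch (s ^ 2) (a (fun i => k (σ i))) n = ch (s ^ 2) (a k) n
        rw [hsym.1 σ k]
      · show ch (s ^ 2) (a (Function.update k i (-(k i)))) n = ch (s ^ 2) (a k) n
        rw [hsym.2 i k]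
    have h3 := h2 (Fin d × Fin r) (chf (s ^ 2) a n) hfs γ hγ
    have hnorm : ‖chf (s ^ 2) a n‖ ≤ M := by
      rw [ContinuousMap.norm_le _ (by positivity)]
      intro k
      rw [Real.norm_eq_abs]
      calc |chf (s ^ 2) a n k| ≤ (4 * s) ^ n := ch_bound s (a k) hs (hb k) n
        _ ≤ (max 1 (4 * s)) ^ n := by
            apply pow_le_pow_left₀ (by positivity)
            exact le_max_right _ _
        _ ≤ (max 1 (4 * s)) ^ n₀ := pow_le_pow_right₀ (le_max_left _ _) hn0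
    have hcard : (r : ℝ) ≤ (Fintype.card (Fin d × Fin r) : ℝ) := by
      rw [Fintype.card_prod, Fintype.card_fin, Fintype.card_fin]
      have : r ≤ d * r := Nat.le_mul_of_pos_left r hd
      exact_mod_cast this
    have hrpos : (0 : ℝ) < r := by exact_mod_cast hr0
    have h4 : ‖hop (chf (s ^ 2) a n) γ‖ ^ 2 * r ≤ 2 * M ^ 2 := by
      calc ‖hop (chf (s ^ 2) a n) γ‖ ^ 2 * r ≤
          ‖hop (chf (s ^ 2) a n) γ‖ ^ 2 * (Fintype.card (Fin d × Fin r) : ℝ) :=
            mul_le_mul_of_nonneg_left hcard (sq_nonneg _)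
        _ ≤ 2 * ‖chf (s ^ 2) a n‖ ^ 2 := h3
        _ ≤ 2 * M ^ 2 := by
            have := pow_le_pow_left₀ (norm_nonneg _) hnorm 2
            linarith
    have h5 : 2 * M ^ 2 < δ ^ 2 * r := by
      rw [div_lt_iff₀ (by positivity)] at hr
      linarith
    have h6 : ‖hop (chf (s ^ 2) a n) γ‖ ^ 2 < δ ^ 2 := by
      have : ‖hop (chf (s ^ 2) a n) γ‖ ^ 2 * r < δ ^ 2 * r := lt_of_le_of_lt h4 h5
      exact lt_of_mul_lt_mul_right this hrpos.le
    exact (lt_of_pow_lt_pow_left₀ 2 hδ.le h6).le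

end Pool.Agent.W52.GKSy3

end
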