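import Pool.Agent.W792.GK.Stm

namespace Pool.Agent.W52.GKT2

open Pool.Agent.W792.GK
open scoped ComplexOrder InnerProductSpace

theorem abs_clamp_le {R : ℝ} (hR : 0 < R) (t : ℝ) : |clamp R t| ≤ R := by
  unfold clamp
  rw [abs_le]
  exact ⟨le_max_left _ _, max_le (by linarith) (min_le_left _ _)⟩

theorem bound {Γ : Type} {R : ℝ} (hR : 0 < R) (v : Γ → ℝ) (u : l2 Γ) (x : Γ) :
    ‖(clamp R (v x) : ℂ) * u x‖ ≤ R * ‖u x‖ := by
  rw [norm_mul, Complex.norm_real, Real.norm_eq_abs]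
  exact mul_le_mul_of_nonneg_right (abs_clamp_le hR _) (norm_nonneg _)

theorem mem {Γ : Type} {R : ℝ} (hR : 0 < R) (v : Γ → ℝ) (u : l2 Γ) :
    Memℓp (fun x => (clamp R (v x) : ℂ) * u x) 2 := by
  apply memℓp_gen
  have h1 : Summable fun x => ‖u x‖ ^ (2 : ENNReal).toReal :=
    (memℓp_gen_iff (by norm_num)).1 (lp.memℓp u)
  simp only [ENNReal.toReal_ofNat, Real.rpow_ofNat] at h1 ⊢
  refine Summable.of_nonneg_of_le (fun x => by positivity) (fun x => ?_) (h1.mul_left (R ^ 2))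
  rw [← mul_pow]
  exact pow_le_pow_left₀ (norm_nonneg _) (bound hR v u x) 2

/-- the linear map -/
noncomputable def ML {Γ : Type} {R : ℝ} (hR : 0 < R) (v : Γ → ℝ) : l2 Γ →ₗ[ℂ] l2 Γ where
  toFun u := ⟨fun x => (clamp R (v x) : ℂ) * u x, mem hR v u⟩
  map_add' a b := by
    ext x
    show (clamp R (v x) : ℂ) * (a x + b x) = (clamp R (v x) : ℂ) * a x + (clamp R (v x) : ℂ) * b x
    ring
  map_smul' c a := by
    ext x
    show (clamp R (v x) : ℂ) * (c * a x) = c * ((clamp R (v x) : ℂ) * a x)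
    ring

theorem ML_apply {Γ : Type} {R : ℝ} (hR : 0 < R) (v : Γ → ℝ) (u : l2 Γ) (x : Γ) :
    ML hR v u x = (clamp R (v x) : ℂ) * u x := rfl

theorem ML_norm {Γ : Type} {R : ℝ} (hR : 0 < R) (v : Γ → ℝ) (u : l2 Γ) :
    ‖ML hR v u‖ ≤ R * ‖u‖ := by
  have h1 : ‖ML hR v u‖ ≤ ‖(R : ℂ) • u‖ := by
    apply lp.norm_mono (by norm_num)
    intro x
    rw [ML_apply]
    refine (bound hR v u x).trans (le_of_eq ?_)
    show _ = ‖(R : ℂ) * u x‖
    rw [norm_mul, Complex.norm_real, Real.norm_of_nonneg hR.le]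
  rw [norm_smul, Complex.norm_real, Real.norm_of_nonneg hR.le] at h1
  exact h1

theorem main : S_T2 := by
  intro Γ R hR v
  refine ⟨(ML hR v).mkContinuous R (ML_norm hR v), ?_, ?_, ?_⟩
  · rw [ContinuousLinearMap.isSelfAdjoint_iff_isSymmetric]
    intro u w
    show ⟪ML hR v u, w⟫_ℂ = ⟪u, ML hR v w⟫_ℂ
    rw [lp.inner_eq_tsum, lp.inner_eq_tsum]
    congr 1
    funext x
    rw [ML_apply, ML_apply]
    simp only [RCLike.inner_apply, map_mul, Complex.conj_ofReal]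
    ring
  · exact LinearMap.mkContinuous_norm_le _ hR.le _
  · intro u x
    rfl

end Pool.Agent.W52.GKT2
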