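import Pool.Agent.W894.HT.Lib

/-!
# Project HT: the number of choices and the number of satisfying assignments
-/

set_option autoImplicit false

namespace Pool.Agent.W52.HTCNF

open Pool.Agent.W894.HT
open Pool.Agent.NPC Pool.Agent.NPC.Cnt

/-- the number of choices without repetition after the list `L` -/
def cnt (S : Stg) (L : List Lb) : ℕ :=
  ((choices S).filter fun c => decide (L ++ c).Nodup).length

theorem cnt_nil (L : List Lb) (h : L.Nodup) : cnt [] L = 1 := by
  simp [cnt, choices, h]

theorem cnt_cons (P Q : List Lb) (S : Stg) (L : List Lb) :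
    cnt ((P, Q) :: S) L = cnt S (L ++ P) + cnt S (L ++ Q) := by
  unfold cnt
  rw [choices, List.filter_append, List.length_append, List.filter_map, List.length_map,
    List.filter_map, List.length_map]
  simp only [Function.comp_def, List.append_assoc]

theorem cnt_not (S : Stg) (L : List Lb) (h : ¬ L.Nodup) : cnt S L = 0 := by
  unfold cnt
  rw [List.length_eq_zero_iff, List.filter_eq_nil_iff]
  intro c _ hc
  rw [decide_eq_true_eq] at hc
  exact h (List.Nodup.of_append_left hc)

/-- the labels of the second route of a clause stage -/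
def cl (c : List (Bool × ℕ)) (j : ℕ) : List Lb := c.zipIdx.map fun q => (q.1.2, j, q.2, q.1.1)

theorem nodup_cl (c : List (Bool × ℕ)) (j : ℕ) : (cl c j).Nodup := by
  apply List.Nodup.of_map (fun a : Lb => a.2.2.1)
  have h : (cl c j).map (fun a : Lb => a.2.2.1) = List.range' 0 c.length := by
    unfold cl
    rw [List.map_map]
    exact List.zipIdx_map_snd 0 c
  rw [h]
  exact List.nodup_range'

theorem mem_cl {c : List (Bool × ℕ)} {j : ℕ} {a : Lb} (h : a ∈ cl c j) : a.2.1 = j := by
  unfold cl at h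
  rw [List.mem_map] at h
  obtain ⟨q, _, rfl⟩ := h
  rfl

theorem nodup_append_cl (c : List (Bool × ℕ)) (j : ℕ) (L : List Lb) (hL : L.Nodup) :
    (L ++ cl c j).Nodup ↔ ∀ a ∈ cl c j, a ∉ L := by
  rw [List.nodup_append']
  constructor
  · rintro ⟨_, _, h⟩ a ha ha'
    exact h ha' ha
  · intro h
    exact ⟨hL, nodup_cl c j, fun a ha ha' => h a ha' ha⟩

theorem clause (φ : CNF ℕ) : ∀ (j : ℕ) (L : List Lb), L.Nodup →
    cnt ((φ.zipIdx j).map fun p => cst p.1 p.2) L % 2 =
      (open Classical in
        if ∀ p ∈ φ.zipIdx j, ¬ ∀ a ∈ cl p.1 p.2, a ∉ L then 1 else 0) := by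
  classical
  induction φ with
  | nil =>
    intro j L hL
    simp [cnt_nil L hL]
  | cons c φ ih =>
    intro j L hL
    rw [List.zipIdx_cons, List.map_cons]
    have e : cst c j = ([], cl c j) := rfl
    rw [e, cnt_cons, List.append_nil]
    by_cases hF : ∀ a ∈ cl c j, a ∉ L
    · have h1 : (L ++ cl c j).Nodup := (nodup_append_cl c j L hL).2 hF
      have h2 := ih (j + 1) L hL
      have h3 := ih (j + 1) (L ++ cl c j) h1
      have h4 : (∀ p ∈ φ.zipIdx (j + 1), ¬ ∀ a ∈ cl p.1 p.2, a ∉ L ++ cl c j) ↔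
          (∀ p ∈ φ.zipIdx (j + 1), ¬ ∀ a ∈ cl p.1 p.2, a ∉ L) := by
        refine forall₂_congr fun p hp => not_congr ?_
        refine forall₂_congr fun a ha => ?_
        rw [List.mem_append, not_or]
        refine ⟨fun h => h.1, fun h => ⟨h, fun h' => ?_⟩⟩
        have h5 := mem_cl ha
        have h6 := mem_cl h'
        have h7 := List.le_snd_of_mem_zipIdx hp
        omega
      rw [if_neg]
      · simp only [h4] at h3
        rw [← h2] at h3
        omega
      · intro h
        exact h (c, j) List.mem_cons_self hF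
    · have h1 : ¬ (L ++ cl c j).Nodup := fun h => hF ((nodup_append_cl c j L hL).1 h)
      rw [cnt_not _ _ h1, Nat.add_zero, ih (j + 1) L hL]
      congr 1
      rw [List.forall_mem_cons]
      exact propext ⟨fun h => ⟨hF, h⟩, fun h => h.2⟩

theorem nodup_occ (φ : CNF ℕ) (v : ℕ) (b : Bool) : (occ φ v b).Nodup := by
  unfold occ
  rw [List.nodup_flatMap]
  constructor
  · intro p _
    apply List.Nodup.map _ List.nodup_range
    intro r r' h
    simpa using h
  · have h : (φ.zipIdx.map Prod.snd).Nodup := by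
      rw [List.zipIdx_map_snd]
      exact List.nodup_range'
    rw [List.Nodup, List.pairwise_map] at h
    refine h.imp ?_
    intro p q hpq a ha hb
    rw [List.mem_map] at ha hb
    obtain ⟨r, _, rfl⟩ := ha
    obtain ⟨r', _, h'⟩ := hb
    simp only [Prod.mk.injEq] at h'
    exact hpq h'.2.1.symm

theorem mem_occ (φ : CNF ℕ) (v : ℕ) (b : Bool) (a : Lb) :
    a ∈ occ φ v b ↔ a.1 = v ∧ a.2.2.2 = b ∧ ∃ c, (c, a.2.1) ∈ φ.zipIdx ∧ a.2.2.1 < c.length := by
  unfold occ
  rw [List.mem_flatMap]
  constructor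
  · rintro ⟨p, hp, ha⟩
    rw [List.mem_map] at ha
    obtain ⟨r, hr, rfl⟩ := ha
    exact ⟨rfl, rfl, p.1, hp, List.mem_range.1 hr⟩
  · obtain ⟨v', j, r, b'⟩ := a
    rintro ⟨rfl, rfl, c, hc, hr⟩
    exact ⟨(c, j), hc, List.mem_map.2 ⟨r, List.mem_range.2 hr, rfl⟩⟩

/-- the labels of the variable stages for the assignment `A` -/
def lab (φ : CNF ℕ) (X : List ℕ) (A : Finset ℕ) : List Lb :=
  X.flatMap fun v => occ φ v (decide (v ∈ A))

theorem nodup_lab (φ : CNF ℕ) (X : List ℕ) (hX : X.Nodup) (A : Finset ℕ) :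
    (lab φ X A).Nodup := by
  unfold lab
  rw [List.nodup_flatMap]
  refine ⟨fun v _ => nodup_occ φ v _, ?_⟩
  refine hX.imp ?_
  intro v v' hvv a ha hb
  rw [mem_occ] at ha hb
  exact hvv (ha.1.symm.trans hb.1)

theorem varst (φ : CNF ℕ) (T : Stg) : ∀ (X : List ℕ), X.Nodup → ∀ L : List Lb,
    cnt (X.map (vst φ) ++ T) L = ∑ A ∈ X.toFinset.powerset, cnt T (L ++ lab φ X A) := by
  intro X
  induction X with
  | nil =>
    intro _ L
    simp [lab]
  | cons v X ih =>
    intro hX L
    rw [List.nodup_cons] at hX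
    rw [List.map_cons, List.cons_append]
    have e : vst φ v = (occ φ v false, occ φ v true) := rfl
    rw [e, cnt_cons, ih hX.2, ih hX.2, List.toFinset_cons,
      Finset.sum_powerset_insert (by simpa using hX.1)]
    congr 1
    · refine Finset.sum_congr rfl fun A hA => ?_
      have hv : v ∉ A := fun h => hX.1 (by simpa using Finset.mem_powerset.1 hA h)
      unfold lab
      rw [List.flatMap_cons, List.append_assoc]
      simp [hv]
    · refine Finset.sum_congr rfl fun A hA => ?_
      have h1 : lab φ X (insert v A) = lab φ X A := by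
        unfold lab
        refine List.flatMap_congr fun u hu => ?_
        have hu' : u ≠ v := fun h => hX.1 (h ▸ hu)
        simp [hu']
      have h2 : lab φ (v :: X) (insert v A) = occ φ v true ++ lab φ X (insert v A) := by
        unfold lab
        rw [List.flatMap_cons]
        simp
      rw [h2, h1, List.append_assoc]

theorem ddg_mem {N : Type} [DecidableEq N] (l : List N) (a : N) : a ∈ ddg l ↔ a ∈ l := by
  induction l with
  | nil => simp [ddg]
  | cons b l ih =>
    have e : ddg (b :: l) = if b ∈ ddg l then ddg l else b :: ddg l := rfl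
    rw [e]
    split_ifs with h
    · rw [List.mem_cons, ih]
      constructor
      · exact Or.inr
      · rintro (rfl | h')
        · exact ih.1 h
        · exact h'
    · rw [List.mem_cons, List.mem_cons, ih]

theorem ddg_nodup {N : Type} [DecidableEq N] (l : List N) : (ddg l).Nodup := by
  induction l with
  | nil => simp [ddg]
  | cons b l ih =>
    have e : ddg (b :: l) = if b ∈ ddg l then ddg l else b :: ddg l := rfl
    rw [e]
    split_ifs with h
    · exact ih
    · exact List.nodup_cons.2 ⟨h, ih⟩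

theorem sat_iff (φ : CNF ℕ) (A : Finset ℕ) :
    (∀ p ∈ φ.zipIdx, ¬ ∀ a ∈ cl p.1 p.2, a ∉ lab φ (ddg (φ.flatten.map Prod.snd)) A) ↔
      SatBy A φ := by
  have key : ∀ c j, (c, j) ∈ φ.zipIdx →
      ((¬ ∀ a ∈ cl c j, a ∉ lab φ (ddg (φ.flatten.map Prod.snd)) A) ↔
        ∃ l ∈ c, l.1 = decide (l.2 ∈ A)) := by
    intro c j hcj
    have hcφ : c ∈ φ := List.fst_mem_of_mem_zipIdx hcj
    rw [not_forall]
    constructor
    · rintro ⟨a, ha⟩
      rw [Classical.not_imp, not_not] at ha
      obtain ⟨ha1, ha2⟩ := ha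
      unfold cl at ha1
      rw [List.mem_map] at ha1
      obtain ⟨⟨⟨b, v⟩, r⟩, hq, rfl⟩ := ha1
      unfold lab at ha2
      rw [List.mem_flatMap] at ha2
      obtain ⟨v', _, hv'⟩ := ha2
      rw [mem_occ] at hv'
      obtain ⟨h1, h2, _⟩ := hv'
      refine ⟨(b, v), List.fst_mem_of_mem_zipIdx hq, ?_⟩
      simp only at h1 h2 ⊢
      rw [h1]
      exact h2
    · rintro ⟨⟨b, v⟩, hl, hb⟩
      obtain ⟨r, hr, hrl⟩ := List.mem_iff_getElem.1 hl
      refine ⟨(v, j, r, b), ?_⟩
      rw [Classical.not_imp, not_not]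
      constructor
      · unfold cl
        rw [List.mem_map]
        refine ⟨((b, v), r), ?_, rfl⟩
        rw [List.mk_mem_zipIdx_iff_getElem?, List.getElem?_eq_some_iff]
        exact ⟨hr, hrl⟩
      · unfold lab
        rw [List.mem_flatMap]
        refine ⟨v, ?_, ?_⟩
        · rw [ddg_mem, List.mem_map]
          exact ⟨(b, v), List.mem_flatten.2 ⟨c, hcφ, hl⟩, rfl⟩
        · rw [mem_occ]
          exact ⟨rfl, hb, c, hcj, hr⟩
  constructor
  · intro h c hc
    obtain ⟨j, hj, hjc⟩ := List.mem_iff_getElem.1 hc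
    have hcj : (c, j) ∈ φ.zipIdx := by
      rw [List.mk_mem_zipIdx_iff_getElem?, List.getElem?_eq_some_iff]
      exact ⟨hj, hjc⟩
    exact (key c j hcj).1 (h (c, j) hcj)
  · rintro h ⟨c, j⟩ hp
    exact (key c j hp).2 (h c (List.fst_mem_of_mem_zipIdx hp))

theorem main : S_CNF := by
  classical
  intro φ
  have h0 : nc (stg φ) = cnt (stg φ) [] := by
    unfold nc cnt
    simp only [List.nil_append]
  rw [h0]
  unfold stg
  rw [cnt_cons, List.nil_append, List.nil_append, cnt_not _ [(0, 0, 0, false), (0, 0, 0, false)]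
    (by simp), Nat.add_zero, varst φ _ _ (ddg_nodup _), Finset.sum_nat_mod]
  have h1 : ∀ A ∈ (ddg (φ.flatten.map Prod.snd)).toFinset.powerset,
      cnt (φ.zipIdx.map fun p => cst p.1 p.2)
        ([] ++ lab φ (ddg (φ.flatten.map Prod.snd)) A) % 2 = if SatBy A φ then 1 else 0 := by
    intro A _
    rw [List.nil_append, clause φ 0 _ (nodup_lab φ _ (ddg_nodup _) A)]
    by_cases h : SatBy A φ
    · rw [if_pos h, if_pos ((sat_iff φ A).2 h)]
    · rw [if_neg h, if_neg (fun h' => h ((sat_iff φ A).1 h'))]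
  rw [Finset.sum_congr rfl h1]
  have h2 : (ddg (φ.flatten.map Prod.snd)).toFinset = vars φ := by
    ext a
    unfold vars
    rw [List.mem_toFinset, List.mem_toFinset, ddg_mem]
  rw [h2]
  unfold satCount
  rw [Finset.card_filter]

end Pool.Agent.W52.HTCNF
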