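import Pool.Agent.W373.Unif.Statements

set_option autoImplicit false

namespace Pool.Agent.W52.UnifCfg3

open Pool.Agent.W373.Unif

section gen
variable {R L : Type} [CommRing R] [LieRing L] [LieAlgebra R L] {x : X → L}

/-- the part of weight `j` (times twelve) -/
noncomputable def part (M : Model R L x) (y : L) (j : ℕ) : L :=
  (12 : R) • ∑ a, (if wt a = j then M.cf1 y a else 0) • x a +
  (6 : R) • ∑ w, (if wt2 w = j then M.cf2 y w else 0) • b2 x w +
  (4 : R) • ∑ w, (if wt3 w = j then M.cf3 y w else 0) • b3 x w +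
  (3 : R) • ∑ w, (if wt4 w = j then M.cf4 y w else 0) • b4 x w

theorem part_mem (M : Model R L x) (y : L) (j : ℕ) : part M y j ∈ wsp R x j := by
  unfold part wsp
  refine Submodule.add_mem _ (Submodule.add_mem _ (Submodule.add_mem _ ?_ ?_) ?_) ?_
  · refine Submodule.smul_mem _ _ (Submodule.sum_mem _ fun a _ => ?_)
    split_ifs with h
    · exact Submodule.smul_mem _ _ (Submodule.subset_span (Or.inl (Or.inl (Or.inl ⟨a, h, rfl⟩))))
    · rw [zero_smul]; exact Submodule.zero_mem _
  · refine Submodule.smul_mem _ _ (Submodule.sum_mem _ fun a _ => ?_)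
    split_ifs with h
    · exact Submodule.smul_mem _ _ (Submodule.subset_span (Or.inl (Or.inl (Or.inr ⟨a, h, rfl⟩))))
    · rw [zero_smul]; exact Submodule.zero_mem _
  · refine Submodule.smul_mem _ _ (Submodule.sum_mem _ fun a _ => ?_)
    split_ifs with h
    · exact Submodule.smul_mem _ _ (Submodule.subset_span (Or.inl (Or.inr ⟨a, h, rfl⟩)))
    · rw [zero_smul]; exact Submodule.zero_mem _
  · refine Submodule.smul_mem _ _ (Submodule.sum_mem _ fun a _ => ?_)
    split_ifs with h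
    · exact Submodule.smul_mem _ _ (Submodule.subset_span (Or.inr ⟨a, h, rfl⟩))
    · rw [zero_smul]; exact Submodule.zero_mem _

/-- the key computation: a linear map which sees only words of one length and preserves weights -/
theorem sum_mask {W : Type} [Fintype W] (wtW : W → ℕ) (c : W → R) (b : W → L)
    (φ : L →ₗ[R] (W → R)) (hφ : ∀ w w', wtW w ≠ wtW w' → φ (b w) w' = 0) (j : ℕ) (w' : W) :
    φ (∑ w, (if wtW w = j then c w else 0) • b w) w' =
      if wtW w' = j then φ (∑ w, c w • b w) w' else 0 := by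
  rw [map_sum, map_sum, Finset.sum_apply, Finset.sum_apply]
  simp only [map_smul, Pi.smul_apply, smul_eq_mul]
  by_cases h : wtW w' = j
  · rw [if_pos h]
    refine Finset.sum_congr rfl fun w _ => ?_
    by_cases h2 : wtW w = j
    · rw [if_pos h2]
    · rw [if_neg h2, zero_mul, hφ w w' (by rw [h]; exact h2), mul_zero]
  · rw [if_neg h]
    refine Finset.sum_eq_zero fun w _ => ?_
    by_cases h2 : wtW w = j
    · rw [if_pos h2, hφ w w' (by rw [h2]; exact fun e => h e.symm), mul_zero]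
    · rw [if_neg h2, zero_mul]

theorem hw1 (M : Model R L x) (w w' : X) (h : wt w ≠ wt w') : M.cf1 (x w) w' = 0 := by
  rw [M.cf1_x, Pi.single_apply, if_neg]
  rintro rfl
  exact h rfl

theorem hw2 (M : Model R L x) (w w' : W2) (h : wt2 w ≠ wt2 w') : M.cf2 (b2 x w) w' = 0 := by
  obtain ⟨a, b⟩ := w
  rw [M.cf2_b2, Pi.sub_apply, Pi.single_apply, Pi.single_apply, if_neg, if_neg, sub_zero]
  · rintro rfl
    apply h
    unfold wt2
    ring
  · rintro rfl
    exact h rfl

theorem hw3 (M : Model R L x) (w w' : W3) (h : wt3 w ≠ wt3 w') : M.cf3 (b3 x w) w' = 0 := by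
  obtain ⟨a, b, c⟩ := w
  rw [M.cf3_b3]
  simp only [Pi.add_apply, Pi.sub_apply, Pi.single_apply]
  rw [if_neg, if_neg, if_neg, if_neg]
  · ring
  all_goals
    rintro rfl
    apply h
    (simp only [wt3, wt2]) <;> ring

theorem hw4 (M : Model R L x) (w w' : W4) (h : wt4 w ≠ wt4 w') : M.cf4 (b4 x w) w' = 0 := by
  obtain ⟨a, b, c, d⟩ := w
  rw [M.cf4_b4]
  simp only [Pi.add_apply, Pi.sub_apply, Pi.single_apply]
  rw [if_neg, if_neg, if_neg, if_neg, if_neg, if_neg, if_neg, if_neg]
  · ring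
  all_goals
    rintro rfl
    apply h
    (simp only [wt4, wt3, wt2]) <;> ring

theorem zero_sum {W W' : Type} [Fintype W] (c : W → R) (b : W → L) (φ : L →ₗ[R] (W' → R))
    (h : ∀ w, φ (b w) = 0) : φ (∑ w, c w • b w) = 0 := by
  rw [map_sum]
  refine Finset.sum_eq_zero fun w _ => ?_
  rw [map_smul, h, smul_zero]

theorem cf1_part (hD : S_Dsw) (M : Model R L x) (y : L) (j : ℕ) (a : X) :
    M.cf1 (part M y j) a = if wt a = j then 12 * M.cf1 y a else 0 := by
  have h1 : (12 : R) * M.cf1 y a = M.cf1 ((12 : R) • ∑ a, M.cf1 y a • x a) a := by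
    have := congrArg (fun z => M.cf1 z a) (hD R L x M y)
    simp only [map_add, map_smul, zero_sum _ _ _ M.cf1_b2, zero_sum _ _ _ M.cf1_b3,
      zero_sum _ _ _ M.cf1_b4, smul_zero, add_zero] at this
    rw [map_smul]
    exact this
  unfold part
  rw [map_add, map_add, map_add]
  simp only [map_smul, zero_sum _ _ _ M.cf1_b2, zero_sum _ _ _ M.cf1_b3,
      zero_sum _ _ _ M.cf1_b4, smul_zero, add_zero]
  rw [Pi.smul_apply, sum_mask wt (M.cf1 y) x M.cf1 (hw1 M) j a, h1, map_smul, Pi.smul_apply]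
  split_ifs <;> simp

theorem cf2_part (hD : S_Dsw) (M : Model R L x) (y : L) (j : ℕ) (a : W2) :
    M.cf2 (part M y j) a = if wt2 a = j then 12 * M.cf2 y a else 0 := by
  have h1 : (12 : R) * M.cf2 y a = M.cf2 ((6 : R) • ∑ a, M.cf2 y a • b2 x a) a := by
    have := congrArg (fun z => M.cf2 z a) (hD R L x M y)
    simp only [map_add, map_smul, zero_sum _ _ _ M.cf2_x, zero_sum _ _ _ M.cf2_b3,
      zero_sum _ _ _ M.cf2_b4, smul_zero, add_zero, zero_add] at this
    rw [map_smul]
    exact this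
  unfold part
  rw [map_add, map_add, map_add]
  simp only [map_smul, zero_sum _ _ _ M.cf2_x, zero_sum _ _ _ M.cf2_b3,
      zero_sum _ _ _ M.cf2_b4, smul_zero, add_zero, zero_add]
  rw [Pi.smul_apply, sum_mask wt2 (M.cf2 y) (b2 x) M.cf2 (hw2 M) j a, h1, map_smul, Pi.smul_apply]
  split_ifs <;> simp

theorem cf3_part (hD : S_Dsw) (M : Model R L x) (y : L) (j : ℕ) (a : W3) :
    M.cf3 (part M y j) a = if wt3 a = j then 12 * M.cf3 y a else 0 := by
  have h1 : (12 : R) * M.cf3 y a = M.cf3 ((4 : R) • ∑ a, M.cf3 y a • b3 x a) a := by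
    have := congrArg (fun z => M.cf3 z a) (hD R L x M y)
    simp only [map_add, map_smul, zero_sum _ _ _ M.cf3_x, zero_sum _ _ _ M.cf3_b2,
      zero_sum _ _ _ M.cf3_b4, smul_zero, add_zero, zero_add] at this
    rw [map_smul]
    exact this
  unfold part
  rw [map_add, map_add, map_add]
  simp only [map_smul, zero_sum _ _ _ M.cf3_x, zero_sum _ _ _ M.cf3_b2,
      zero_sum _ _ _ M.cf3_b4, smul_zero, add_zero, zero_add]
  rw [Pi.smul_apply, sum_mask wt3 (M.cf3 y) (b3 x) M.cf3 (hw3 M) j a, h1, map_smul, Pi.smul_apply]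
  split_ifs <;> simp

theorem cf4_part (hD : S_Dsw) (M : Model R L x) (y : L) (j : ℕ) (a : W4) :
    M.cf4 (part M y j) a = if wt4 a = j then 12 * M.cf4 y a else 0 := by
  have h1 : (12 : R) * M.cf4 y a = M.cf4 ((3 : R) • ∑ a, M.cf4 y a • b4 x a) a := by
    have := congrArg (fun z => M.cf4 z a) (hD R L x M y)
    simp only [map_add, map_smul, zero_sum _ _ _ M.cf4_x, zero_sum _ _ _ M.cf4_b2,
      zero_sum _ _ _ M.cf4_b3, smul_zero, add_zero, zero_add] at this
    rw [map_smul]
    exact this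
  unfold part
  rw [map_add, map_add, map_add]
  simp only [map_smul, zero_sum _ _ _ M.cf4_x, zero_sum _ _ _ M.cf4_b2,
      zero_sum _ _ _ M.cf4_b3, smul_zero, add_zero, zero_add]
  rw [Pi.smul_apply, sum_mask wt4 (M.cf4 y) (b4 x) M.cf4 (hw4 M) j a, h1, map_smul, Pi.smul_apply]
  split_ifs <;> simp

theorem mask_sum {W : Type} [Fintype W] (wtW : W → ℕ) (J : ℕ) (hJ : ∀ w, wtW w < J) (c : W → R)
    (b : W → L) :
    ∑ j ∈ Finset.range J, ∑ w, (if wtW w = j then c w else 0) • b w = ∑ w, c w • b w := by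
  rw [Finset.sum_comm]
  refine Finset.sum_congr rfl fun w _ => ?_
  rw [← Finset.sum_smul]
  congr 1
  rw [Finset.sum_ite_eq, if_pos (Finset.mem_range.2 (hJ w))]

theorem wt_lt (a : X) : wt a ≤ 5 ^ 5 := by
  unfold wt
  exact Nat.pow_le_pow_right (by norm_num) (by omega)

theorem sum_part (hD : S_Dsw) (M : Model R L x) (y : L) :
    (12 : R) • y = ∑ j ∈ Finset.range (5 ^ 6), part M y j := by
  unfold part
  rw [Finset.sum_add_distrib, Finset.sum_add_distrib, Finset.sum_add_distrib,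
    ← Finset.smul_sum, ← Finset.smul_sum, ← Finset.smul_sum, ← Finset.smul_sum,
    mask_sum wt (5 ^ 6) (fun w => by have := wt_lt w; omega),
    mask_sum wt2 (5 ^ 6) (fun w => by
      have h1 := wt_lt w.1
      have h2 := wt_lt w.2
      unfold wt2
      omega),
    mask_sum wt3 (5 ^ 6) (fun w => by
      have h1 := wt_lt w.1
      have h2 := wt_lt w.2.1
      have h3 := wt_lt w.2.2
      unfold wt3 wt2
      omega),
    mask_sum wt4 (5 ^ 6) (fun w => by
      have h1 := wt_lt w.1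
      have h2 := wt_lt w.2.1
      have h3 := wt_lt w.2.2.1
      have h4 := wt_lt w.2.2.2
      unfold wt4 wt3 wt2
      omega)]
  exact hD R L x M y

theorem rot_inj : Function.Injective rot := by decide

theorem rot2_inj : Function.Injective rot2 := by
  rintro ⟨a, b⟩ ⟨c, d⟩ h
  simp only [rot2, Prod.mk.injEq] at h
  rw [rot_inj h.1, rot_inj h.2]

theorem rot3_inj : Function.Injective rot3 := by
  rintro ⟨a, b⟩ ⟨c, d⟩ h
  simp only [rot3, Prod.mk.injEq] at h
  rw [rot_inj h.1, rot2_inj h.2]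

theorem rot4_inj : Function.Injective rot4 := by
  rintro ⟨a, b⟩ ⟨c, d⟩ h
  simp only [rot4, Prod.mk.injEq] at h
  rw [rot_inj h.1, rot3_inj h.2]

theorem f_b2 (f : L →ₗ⁅R⁆ L) (hf : ∀ a, f (x a) = x (rot a)) (w : W2) :
    f (b2 x w) = b2 x (rot2 w) := by
  unfold b2
  rw [LieHom.map_lie, hf, hf]
  rfl

theorem f_b3 (f : L →ₗ⁅R⁆ L) (hf : ∀ a, f (x a) = x (rot a)) (w : W3) :
    f (b3 x w) = b3 x (rot3 w) := by
  unfold b3
  rw [LieHom.map_lie, hf, f_b2 f hf]
  rfl

theorem f_b4 (f : L →ₗ⁅R⁆ L) (hf : ∀ a, f (x a) = x (rot a)) (w : W4) :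
    f (b4 x w) = b4 x (rot4 w) := by
  unfold b4
  rw [LieHom.map_lie, hf, f_b3 f hf]
  rfl

theorem single_rot {W : Type} [DecidableEq W] (r : W → W) (hr : Function.Injective r) (w w' : W) :
    (Pi.single (r w) (1 : R) : W → R) (r w') = (Pi.single w (1 : R) : W → R) w' := by
  simp only [Pi.single_apply, hr.eq_iff]

theorem eq_of_span (M : Model R L x) {N : Type} [AddCommGroup N] [Module R N] (φ ψ : L →ₗ[R] N)
    (h1 : ∀ a, φ (x a) = ψ (x a)) (h2 : ∀ w, φ (b2 x w) = ψ (b2 x w))
    (h3 : ∀ w, φ (b3 x w) = ψ (b3 x w)) (h4 : ∀ w, φ (b4 x w) = ψ (b4 x w)) (y : L) :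
    φ y = ψ y := by
  have hy := M.span y
  induction hy using Submodule.span_induction with
  | mem z hz =>
    rcases hz with ((⟨a, rfl⟩ | ⟨a, rfl⟩) | ⟨a, rfl⟩) | ⟨a, rfl⟩
    · exact h1 a
    · exact h2 a
    · exact h3 a
    · exact h4 a
  | zero => rw [map_zero, map_zero]
  | add u v _ _ hu hv => rw [map_add, map_add, hu, hv]
  | smul c u _ hu => rw [map_smul, map_smul, hu]

theorem cf1_f (M : Model R L x) (f : L →ₗ⁅R⁆ L) (hf : ∀ a, f (x a) = x (rot a)) (y : L) (w : X) :
    M.cf1 (f y) (rot w) = M.cf1 y w := by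
  have := eq_of_span M ((LinearMap.proj (rot w)) ∘ₗ M.cf1 ∘ₗ (f : L →ₗ[R] L))
    ((LinearMap.proj w) ∘ₗ M.cf1) (fun a => by
      show M.cf1 (f (x a)) (rot w) = M.cf1 (x a) w
      rw [hf, M.cf1_x, M.cf1_x, single_rot rot rot_inj]) (fun a => by
      show M.cf1 (f (b2 x a)) (rot w) = M.cf1 (b2 x a) w
      rw [f_b2 f hf, M.cf1_b2, M.cf1_b2]; rfl) (fun a => by
      show M.cf1 (f (b3 x a)) (rot w) = M.cf1 (b3 x a) w
      rw [f_b3 f hf, M.cf1_b3, M.cf1_b3]; rfl) (fun a => by
      show M.cf1 (f (b4 x a)) (rot w) = M.cf1 (b4 x a) w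
      rw [f_b4 f hf, M.cf1_b4, M.cf1_b4]; rfl) y
  exact this

theorem cf2_f (M : Model R L x) (f : L →ₗ⁅R⁆ L) (hf : ∀ a, f (x a) = x (rot a)) (y : L) (w : W2) :
    M.cf2 (f y) (rot2 w) = M.cf2 y w := by
  have := eq_of_span M ((LinearMap.proj (rot2 w)) ∘ₗ M.cf2 ∘ₗ (f : L →ₗ[R] L))
    ((LinearMap.proj w) ∘ₗ M.cf2) (fun a => by
      show M.cf2 (f (x a)) (rot2 w) = M.cf2 (x a) w
      rw [hf, M.cf2_x, M.cf2_x]; rfl) (fun a => by
      show M.cf2 (f (b2 x a)) (rot2 w) = M.cf2 (b2 x a) w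
      obtain ⟨a, b⟩ := a
      rw [f_b2 f hf, show rot2 (a, b) = (rot a, rot b) from rfl, M.cf2_b2, M.cf2_b2]
      simp only [Pi.sub_apply]
      rw [← single_rot rot2 rot2_inj (a, b), ← single_rot rot2 rot2_inj (b, a)]
      rfl) (fun a => by
      show M.cf2 (f (b3 x a)) (rot2 w) = M.cf2 (b3 x a) w
      rw [f_b3 f hf, M.cf2_b3, M.cf2_b3]; rfl) (fun a => by
      show M.cf2 (f (b4 x a)) (rot2 w) = M.cf2 (b4 x a) w
      rw [f_b4 f hf, M.cf2_b4, M.cf2_b4]; rfl) y
  exact this

theorem cf3_f (M : Model R L x) (f : L →ₗ⁅R⁆ L) (hf : ∀ a, f (x a) = x (rot a)) (y : L) (w : W3) :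
    M.cf3 (f y) (rot3 w) = M.cf3 y w := by
  have := eq_of_span M ((LinearMap.proj (rot3 w)) ∘ₗ M.cf3 ∘ₗ (f : L →ₗ[R] L))
    ((LinearMap.proj w) ∘ₗ M.cf3) (fun a => by
      show M.cf3 (f (x a)) (rot3 w) = M.cf3 (x a) w
      rw [hf, M.cf3_x, M.cf3_x]; rfl) (fun a => by
      show M.cf3 (f (b2 x a)) (rot3 w) = M.cf3 (b2 x a) w
      rw [f_b2 f hf, M.cf3_b2, M.cf3_b2]; rfl) (fun a => by
      show M.cf3 (f (b3 x a)) (rot3 w) = M.cf3 (b3 x a) w
      obtain ⟨a, b, c⟩ := a
      rw [f_b3 f hf, show rot3 (a, b, c) = (rot a, rot b, rot c) from rfl, M.cf3_b3, M.cf3_b3]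
      simp only [Pi.sub_apply, Pi.add_apply]
      rw [← single_rot rot3 rot3_inj (a, b, c), ← single_rot rot3 rot3_inj (a, c, b),
        ← single_rot rot3 rot3_inj (b, c, a), ← single_rot rot3 rot3_inj (c, b, a)]
      rfl) (fun a => by
      show M.cf3 (f (b4 x a)) (rot3 w) = M.cf3 (b4 x a) w
      rw [f_b4 f hf, M.cf3_b4, M.cf3_b4]; rfl) y
  exact this

theorem cf4_f (M : Model R L x) (f : L →ₗ⁅R⁆ L) (hf : ∀ a, f (x a) = x (rot a)) (y : L) (w : W4) :
    M.cf4 (f y) (rot4 w) = M.cf4 y w := by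
  have := eq_of_span M ((LinearMap.proj (rot4 w)) ∘ₗ M.cf4 ∘ₗ (f : L →ₗ[R] L))
    ((LinearMap.proj w) ∘ₗ M.cf4) (fun a => by
      show M.cf4 (f (x a)) (rot4 w) = M.cf4 (x a) w
      rw [hf, M.cf4_x, M.cf4_x]; rfl) (fun a => by
      show M.cf4 (f (b2 x a)) (rot4 w) = M.cf4 (b2 x a) w
      rw [f_b2 f hf, M.cf4_b2, M.cf4_b2]; rfl) (fun a => by
      show M.cf4 (f (b3 x a)) (rot4 w) = M.cf4 (b3 x a) w
      rw [f_b3 f hf, M.cf4_b3, M.cf4_b3]; rfl) (fun a => by
      show M.cf4 (f (b4 x a)) (rot4 w) = M.cf4 (b4 x a) w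
      obtain ⟨a, b, c, d⟩ := a
      rw [f_b4 f hf, show rot4 (a, b, c, d) = (rot a, rot b, rot c, rot d) from rfl,
        M.cf4_b4, M.cf4_b4]
      simp only [Pi.sub_apply, Pi.add_apply]
      rw [← single_rot rot4 rot4_inj (a, b, c, d), ← single_rot rot4 rot4_inj (a, b, d, c),
        ← single_rot rot4 rot4_inj (a, c, d, b), ← single_rot rot4 rot4_inj (a, d, c, b),
        ← single_rot rot4 rot4_inj (b, c, d, a), ← single_rot rot4 rot4_inj (b, d, c, a),
        ← single_rot rot4 rot4_inj (c, d, b, a), ← single_rot rot4 rot4_inj (d, c, b, a)]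
      rfl) y
  exact this

end gen

theorem isUnit_nat (p : ℕ) [Fact p.Prime] (n : ℕ) (_h0 : 0 < n) (h : ¬ p ∣ n) :
    IsUnit ((n : ℕ) : ℤ_[p]) := by
  rw [PadicInt.isUnit_iff]
  rw [PadicInt.norm_natCast_eq_one_iff]
  exact ((Nat.Prime.coprime_iff_not_dvd Fact.out).2 h)

theorem main : S_Dsw → S_Cfg3 := by
  intro hD p _ L _ _ x M m l V2 V3 V4 I hp hI hpair hle4 ht4 hr4
  have hpr : p.Prime := Fact.out
  have h12 : ¬ p ∣ 12 := by
    intro h
    have h1 : p ∣ 2 ^ 2 * 3 := by norm_num; exact h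
    rcases (Nat.Prime.dvd_mul hpr).1 h1 with h2 | h2
    · have := Nat.le_of_dvd (by norm_num) (hpr.dvd_of_dvd_pow h2)
      omega
    · have := Nat.le_of_dvd (by norm_num) h2
      omega
  have hu : IsUnit (12 : ℤ_[p]) := by
    have := isUnit_nat p 12 (by norm_num) h12
    exact_mod_cast this
  obtain ⟨u, hu1⟩ := hu.exists_left_inv
  have hmem : ∀ y, y ∈ I ↔ y ∈ idSet M m l V2 V3 V4 := by
    intro y
    rw [← hI]
    rfl
  refine ⟨?_, ?_, ?_⟩
  · intro y hy
    have hy' := (hmem y).1 hy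
    have hpart : ∀ j, part M y j ∈ I := by
      intro j
      rw [hmem]
      refine ⟨?_, ?_, ?_, ?_, ?_⟩
      · rw [cf1_part hD]
        split_ifs
        · exact dvd_mul_of_dvd_right hy'.1 _
        · exact dvd_zero _
      · intro a ha
        rw [cf1_part hD]
        split_ifs
        · exact dvd_mul_of_dvd_right (hy'.2.1 a ha) _
        · exact dvd_zero _
      · intro F hF
        have h1 := hy'.2.2.1 _ (hpair.t2 F hF j)
        unfold pr2 at h1 ⊢
        have h2 : ∀ w, PadicInt.toZMod (M.cf2 (part M y j) w) * F w =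
            12 * (PadicInt.toZMod (M.cf2 y w) * (if wt2 w = j then F w else 0)) := by
          intro w
          rw [cf2_part hD]
          split_ifs
          · rw [map_mul, map_ofNat]; ring
          · rw [map_zero]; ring
        simp only [h2]
        rw [← Finset.mul_sum, h1, mul_zero]
      · intro F hF
        have h1 := hy'.2.2.2.1 _ (hpair.t3 F hF j)
        unfold pr3 at h1 ⊢
        have h2 : ∀ w, PadicInt.toZMod (M.cf3 (part M y j) w) * F w =
            12 * (PadicInt.toZMod (M.cf3 y w) * (if wt3 w = j then F w else 0)) := by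
          intro w
          rw [cf3_part hD]
          split_ifs
          · rw [map_mul, map_ofNat]; ring
          · rw [map_zero]; ring
        simp only [h2]
        rw [← Finset.mul_sum, h1, mul_zero]
      · intro F hF
        have h1 := hy'.2.2.2.2 _ (ht4 F hF j)
        unfold pr4 at h1 ⊢
        have h2 : ∀ w, PadicInt.toZMod (M.cf4 (part M y j) w) * F w =
            12 * (PadicInt.toZMod (M.cf4 y w) * (if wt4 w = j then F w else 0)) := by
          intro w
          rw [cf4_part hD]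
          split_ifs
          · rw [map_mul, map_ofNat]; ring
          · rw [map_zero]; ring
        simp only [h2]
        rw [← Finset.mul_sum, h1, mul_zero]
    have hy2 : y = u • ∑ j ∈ Finset.range (5 ^ 6), part M y j := by
      rw [← sum_part hD M y, smul_smul, hu1, one_smul]
    rw [hy2]
    refine Submodule.smul_mem _ _ (Submodule.sum_mem _ fun j _ => ?_)
    exact Submodule.mem_iSup_of_mem j ⟨hpart j, part_mem M y j⟩
  · intro f hf y hy
    have hy' := (hmem y).1 hy
    rw [hmem]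
    refine ⟨?_, ?_, ?_, ?_, ?_⟩
    · have := cf1_f M f hf y 5
      rw [show rot 5 = 5 from rfl] at this
      rw [this]
      exact hy'.1
    · intro a ha
      obtain ⟨b, rfl⟩ : ∃ b, rot b = a := (Finite.injective_iff_surjective.1 rot_inj) a
      rw [cf1_f M f hf]
      apply hy'.2.1
      rintro rfl
      exact ha rfl
    · intro F hF
      have h1 := hy'.2.2.1 _ (hpair.r2 F hF)
      unfold pr2 at h1 ⊢
      rw [← (Equiv.ofBijective rot2 (Finite.injective_iff_bijective.1 rot2_inj)).sum_comp]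
      simp only [Equiv.ofBijective_apply, cf2_f M f hf]
      exact h1
    · intro F hF
      have h1 := hy'.2.2.2.1 _ (hpair.r3 F hF)
      unfold pr3 at h1 ⊢
      rw [← (Equiv.ofBijective rot3 (Finite.injective_iff_bijective.1 rot3_inj)).sum_comp]
      simp only [Equiv.ofBijective_apply, cf3_f M f hf]
      exact h1
    · intro F hF
      have h1 := hy'.2.2.2.2 _ (hr4 F hF)
      unfold pr4 at h1 ⊢
      rw [← (Equiv.ofBijective rot4 (Finite.injective_iff_bijective.1 rot4_inj)).sum_comp]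
      simp only [Equiv.ofBijective_apply, cf4_f M f hf]
      exact h1
  · have hC4 : ∀ F ∈ V4, F ∈ C4 (ZMod p) := fun F hF => (hle4 hF).1
    have hpr4 : ∀ F ∈ C4 (ZMod p), ∀ w, pr4 M F (b4 x w) = 4 * F w := by
      rintro F hF ⟨a, b, c, d⟩
      have hs : pr4 M F (b4 x (a, b, c, d)) = F (a, b, c, d) - F (a, b, d, c) - F (a, c, d, b) +
          F (a, d, c, b) - F (b, c, d, a) + F (b, d, c, a) + F (c, d, b, a) - F (d, c, b, a) := by
        unfold pr4
        rw [M.cf4_b4]
        simp only [Pi.add_apply, Pi.sub_apply, Pi.single_apply, map_add, map_sub, add_mul,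
          sub_mul, Finset.sum_add_distrib, Finset.sum_sub_distrib, apply_ite (PadicInt.toZMod),
          map_one, map_zero, ite_mul, one_mul, zero_mul, Finset.sum_ite_eq', Finset.mem_univ,
          if_true]
      have e1 := (hF.1 a).1 b c d
      have e2 := (hF.1 a).1 c b d
      have e2' := (hF.1 a).1 d c b
      have e3 := (hF.1 a).2 b c d
      have e4 := (hF.1 b).1 d c a
      have e4' := (hF.1 b).1 a c d
      have e5 := (hF.1 b).2 a c d
      have e6 := (hF.1 c).1 d b a
      have e7 := (hF.1 d).1 c b a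
      have e8 := hF.2 a b c d
      simp only at e1 e2 e2' e3 e4 e4' e5 e6 e7 e8
      rw [hs]
      linear_combination (-1 : ZMod p) * e1 + e2' - e3 + e4 - e5 + e6 - e7 - e8
    constructor
    · intro hle
      rw [eq_bot_iff]
      intro F hF
      rw [Submodule.mem_bot]
      funext w
      have hb : b4 x w ∈ I := by
        apply hle
        have : b4 x w ∈ (LieModule.lowerCentralSeries ℤ_[p] L L 3 : Submodule ℤ_[p] L) := by
          rw [M.lcs3]
          exact Submodule.subset_span ⟨w, rfl⟩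
        exact this
      have h1 := ((hmem _).1 hb).2.2.2.2 F hF
      rw [hpr4 F (hC4 F hF)] at h1
      rcases mul_eq_zero.1 h1 with h2 | h2
      · exfalso
        have h3 : ((4 : ℕ) : ZMod p) = 0 := by exact_mod_cast h2
        rw [ZMod.natCast_eq_zero_iff] at h3
        have := Nat.le_of_dvd (by norm_num) h3
        omega
      · exact h2
    · intro hbot
      have hsub : (LieModule.lowerCentralSeries ℤ_[p] L L 3 : Submodule ℤ_[p] L) ≤
          (I : Submodule ℤ_[p] L) := by
        rw [M.lcs3, Submodule.span_le]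
        rintro _ ⟨w, rfl⟩
        show b4 x w ∈ I
        rw [hmem]
        refine ⟨?_, ?_, ?_, ?_, ?_⟩
        · rw [M.cf1_b4]; exact dvd_zero _
        · intro a _
          rw [M.cf1_b4]; exact dvd_zero _
        · intro F _
          unfold pr2
          rw [M.cf2_b4]
          simp
        · intro F _
          unfold pr3
          rw [M.cf3_b4]
          simp
        · intro F hF
          rw [hbot, Submodule.mem_bot] at hF
          subst hF
          unfold pr4
          simp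
      exact hsub

end Pool.Agent.W52.UnifCfg3
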